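import Pool.Agent.Helper234.Sub.S2

set_option autoImplicit false
open scoped ComplexOrder InnerProductSpace TensorProduct

namespace Pool.Agent.Helper234.Sub.SA

open Pool.Agent.Helper234.Sub


variable {A : Type} [CStarAlgebra A]


section vec

open Complex ComplexStarModule

variable [PartialOrder A] [StarOrderedRing A]

/-- operator Cauchy-Schwarz inequality -/
theorem op_cs {n : ℕ} (t : Fin n → ℂ) (x : Fin n → A) :
    star (∑ i, star (t i) • x i) * (∑ i, star (t i) • x i) ≤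
      (∑ i, ‖t i‖ ^ 2 : ℝ) • ∑ i, star (x i) * x i := by
  have h : 0 ≤ ∑ i, ∑ j, star (t i • x j - t j • x i) * (t i • x j - t j • x i) :=
    Finset.sum_nonneg (fun _ _ => Finset.sum_nonneg fun _ _ => star_mul_self_nonneg _)
  have hn : ∀ z : ℂ, star z * z = ((‖z‖ ^ 2 : ℝ) : ℂ) := by
    intro z
    rw [Complex.star_def, ← Complex.normSq_eq_conj_mul_self, Complex.normSq_eq_norm_sq]
  have e1 : star (∑ i, star (t i) • x i) * (∑ i, star (t i) • x i) =
      ∑ i, ∑ j, (star (t j) * t i) • (star (x i) * x j) := by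
    rw [star_sum, Finset.sum_mul_sum]
    apply Finset.sum_congr rfl
    intro i _
    apply Finset.sum_congr rfl
    intro j _
    rw [star_smul, star_star, smul_mul_smul_comm, mul_comm (t i)]
  have e2 : (∑ i, ‖t i‖ ^ 2 : ℝ) • ∑ i, star (x i) * x i =
      ∑ i, ∑ j, (star (t i) * t i) • (star (x j) * x j) := by
    rw [Finset.sum_smul]
    apply Finset.sum_congr rfl
    intro i _
    rw [← Finset.smul_sum, hn, Complex.coe_smul]
  have e2' : (∑ i, ‖t i‖ ^ 2 : ℝ) • ∑ i, star (x i) * x i =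
      ∑ i, ∑ j, (star (t j) * t j) • (star (x i) * x i) := by
    rw [e2, Finset.sum_comm]
  have e1' : star (∑ i, star (t i) • x i) * (∑ i, star (t i) • x i) =
      ∑ i, ∑ j, (star (t i) * t j) • (star (x j) * x i) := by
    rw [e1, Finset.sum_comm]
  have e3 : ∑ i, ∑ j, star (t i • x j - t j • x i) * (t i • x j - t j • x i) =
      ((∑ i, ‖t i‖ ^ 2 : ℝ) • ∑ i, star (x i) * x i -
        star (∑ i, star (t i) • x i) * (∑ i, star (t i) • x i)) +
      ((∑ i, ‖t i‖ ^ 2 : ℝ) • ∑ i, star (x i) * x i -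
        star (∑ i, star (t i) • x i) * (∑ i, star (t i) • x i)) := by
    have e4 : ∀ i j, star (t i • x j - t j • x i) * (t i • x j - t j • x i) =
        ((star (t i) * t i) • (star (x j) * x j) - (star (t j) * t i) • (star (x i) * x j)) +
        ((star (t j) * t j) • (star (x i) * x i) - (star (t i) * t j) • (star (x j) * x i)) := by
      intro i j
      rw [star_sub, star_smul, star_smul, sub_mul, mul_sub, mul_sub, smul_mul_smul_comm,
        smul_mul_smul_comm, smul_mul_smul_comm, smul_mul_smul_comm]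
      abel
    simp only [e4, Finset.sum_add_distrib, Finset.sum_sub_distrib]
    rw [← e2, ← e2', ← e1, ← e1']
  rw [e3] at h
  have h2 : 0 ≤ (2 : ℝ)⁻¹ • (((∑ i, ‖t i‖ ^ 2 : ℝ) • ∑ i, star (x i) * x i -
        star (∑ i, star (t i) • x i) * (∑ i, star (t i) • x i)) +
      ((∑ i, ‖t i‖ ^ 2 : ℝ) • ∑ i, star (x i) * x i -
        star (∑ i, star (t i) • x i) * (∑ i, star (t i) • x i))) := smul_nonneg (by norm_num) h
  rw [← two_smul ℝ, smul_smul, inv_mul_cancel₀ (by norm_num), one_smul] at h2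
  exact sub_nonneg.1 h2

/-- row norm inequality for a bounded functional -/
theorem row_bound (f : A →L[ℂ] ℂ) {n : ℕ} (x : Fin n → A) :
    ∑ i, ‖f (x i)‖ ^ 2 ≤ ‖f‖ ^ 2 * ‖∑ i, star (x i) * x i‖ := by
  set T : ℝ := ∑ i, ‖f (x i)‖ ^ 2 with hT
  set S : A := ∑ i, star (x i) * x i with hS
  have hT0 : 0 ≤ T := by positivity
  set y : A := ∑ i, star (f (x i)) • x i with hy
  have h1 : star y * y ≤ T • S := op_cs (fun i => f (x i)) x
  have h2 : ‖y‖ ^ 2 ≤ T * ‖S‖ := by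
    have h3 := CStarAlgebra.norm_le_norm_of_nonneg_of_le (star_mul_self_nonneg y) h1
    rw [CStarRing.norm_star_mul_self, norm_smul, Real.norm_of_nonneg hT0] at h3
    rw [sq]; exact h3
  have h3 : f y = (T : ℂ) := by
    rw [hy, map_sum, hT]
    push_cast
    apply Finset.sum_congr rfl
    intro i _
    rw [map_smul, smul_eq_mul, Complex.star_def, ← Complex.normSq_eq_conj_mul_self,
      Complex.normSq_eq_norm_sq]
    push_cast; rfl
  have h4 : T ≤ ‖f‖ * ‖y‖ := by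
    have := f.le_opNorm y
    rw [h3, Complex.norm_real, Real.norm_of_nonneg hT0] at this
    exact this
  rcases hT0.eq_or_lt with h0 | h0
  · rw [← h0]; positivity
  · have h5 : T ^ 2 ≤ ‖f‖ ^ 2 * (T * ‖S‖) := by
      calc T ^ 2 ≤ (‖f‖ * ‖y‖) ^ 2 := pow_le_pow_left₀ hT0 h4 2
        _ = ‖f‖ ^ 2 * ‖y‖ ^ 2 := by ring
        _ ≤ _ := mul_le_mul_of_nonneg_left h2 (by positivity)
    have h6 : T * T ≤ T * (‖f‖ ^ 2 * ‖S‖) := by nlinarith
    exact le_of_mul_le_mul_left h6 h0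

/-- a positive functional dominating `f` -/
theorem exists_psi (f : A →L[ℂ] ℂ) : ∃ ψ : A →ₗ[ℝ] ℝ, (∀ a, ψ a ≤ ‖a‖) ∧
    (∀ x : A, 0 ≤ ψ (star x * x)) ∧ ∀ x : A, ‖f x‖ ^ 2 ≤ ‖f‖ ^ 2 * ψ (star x * x) := by
  classical
  let q : A → (Σ n, Fin n → A) → ℝ := fun a σ =>
    ‖a + ∑ i, star (σ.2 i) * σ.2 i‖ - (∑ i, ‖f (σ.2 i)‖ ^ 2) / ‖f‖ ^ 2
  let p : A → ℝ := fun a => ⨅ σ : (Σ n, Fin n → A), q a σ
  have hlow : ∀ a σ, -‖a‖ ≤ q a σ := by
    rintro a ⟨n, x⟩
    have h1 : (∑ i, ‖f (x i)‖ ^ 2) / ‖f‖ ^ 2 ≤ ‖∑ i, star (x i) * x i‖ :=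
      div_le_of_le_mul₀ (by positivity) (norm_nonneg _) (by rw [mul_comm]; exact row_bound f x)
    have h2 : ‖∑ i, star (x i) * x i‖ ≤ ‖a + ∑ i, star (x i) * x i‖ + ‖a‖ := by
      have := norm_sub_le (a + ∑ i, star (x i) * x i) a
      rwa [add_sub_cancel_left] at this
    simp only [q]
    linarith
  have hbdd : ∀ a, BddBelow (Set.range (q a)) := fun a => ⟨-‖a‖, by
    rintro _ ⟨σ, rfl⟩; exact hlow a σ⟩
  have hple : ∀ a σ, p a ≤ q a σ := fun a σ => ciInf_le (hbdd a) σ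
  have hne : Nonempty (Σ n, Fin n → A) := ⟨⟨0, fun _ => 0⟩⟩
  have hplow : ∀ a, -‖a‖ ≤ p a := fun a => le_ciInf (hlow a)
  have hadd : ∀ a b, p (a + b) ≤ p a + p b := by
    intro a b
    apply le_of_forall_pos_le_add
    intro ε hε
    obtain ⟨⟨n, x⟩, hx⟩ := exists_lt_of_ciInf_lt (show p a < p a + ε / 2 by linarith)
    obtain ⟨⟨m, y⟩, hy⟩ := exists_lt_of_ciInf_lt (show p b < p b + ε / 2 by linarith)
    have h1 := hple (a + b) ⟨n + m, Fin.append x y⟩
    have h2 : q (a + b) ⟨n + m, Fin.append x y⟩ ≤ q a ⟨n, x⟩ + q b ⟨m, y⟩ := by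
      simp only [q, Fin.sum_univ_add, Fin.append_left, Fin.append_right]
      have h3 := norm_add_le (a + ∑ i, star (x i) * x i) (b + ∑ i, star (y i) * y i)
      have e : a + b + (∑ i, star (x i) * x i + ∑ i, star (y i) * y i) =
          a + ∑ i, star (x i) * x i + (b + ∑ i, star (y i) * y i) := by abel
      rw [e, add_div]
      linarith
    linarith
  have hhom1 : ∀ c : ℝ, 0 < c → ∀ a, p (c • a) ≤ c * p a := by
    intro c hc a
    have h1 : p (c • a) / c ≤ p a := by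
      apply le_ciInf
      rintro ⟨n, x⟩
      rw [div_le_iff₀ hc]
      have h2 := hple (c • a) ⟨n, fun i => (Real.sqrt c) • x i⟩
      have h3 : q (c • a) ⟨n, fun i => (Real.sqrt c) • x i⟩ = q a ⟨n, x⟩ * c := by
        simp only [q]
        have e1 : ∀ i, star (Real.sqrt c • x i) * (Real.sqrt c • x i) = c • (star (x i) * x i) := by
          intro i
          rw [star_smul, star_trivial, smul_mul_smul_comm, Real.mul_self_sqrt hc.le]
        have e2 : ∀ i, ‖f (Real.sqrt c • x i)‖ ^ 2 = c * ‖f (x i)‖ ^ 2 := by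
          intro i
          have : Real.sqrt c • x i = ((Real.sqrt c : ℝ) : ℂ) • x i := (Complex.coe_smul _ _).symm
          rw [this, map_smul, norm_smul, Complex.norm_real, mul_pow, Real.norm_eq_abs, sq_abs,
            Real.sq_sqrt hc.le]
        simp only [e1, e2]
        rw [← Finset.smul_sum, ← smul_add, norm_smul, Real.norm_of_nonneg hc.le, ← Finset.mul_sum]
        ring
      rw [h3] at h2
      exact h2
    rw [div_le_iff₀ hc] at h1
    linarith
  have hhom : ∀ c : ℝ, 0 < c → ∀ a, p (c • a) = c * p a := by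
    intro c hc a
    apply le_antisymm (hhom1 c hc a)
    have h1 := hhom1 c⁻¹ (inv_pos.2 hc) (c • a)
    rw [smul_smul, inv_mul_cancel₀ hc.ne', one_smul] at h1
    calc c * p a ≤ c * (c⁻¹ * p (c • a)) := mul_le_mul_of_nonneg_left h1 hc.le
      _ = p (c • a) := by rw [← mul_assoc, mul_inv_cancel₀ hc.ne', one_mul]
  obtain ⟨ψ, -, hψ⟩ := exists_extension_of_le_sublinear (⟨⊥, 0⟩ : A →ₗ.[ℝ] ℝ) p hhom hadd (by
    rintro ⟨x, hx⟩
    have : x = 0 := by simpa using hx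
    subst this
    have := hplow 0
    simpa using this)
  have h1 : ∀ a, ψ a ≤ ‖a‖ := by
    intro a
    have h2 := hple a ⟨0, fun _ => 0⟩
    simp only [q, Finset.univ_eq_empty, Finset.sum_empty, add_zero, zero_div, sub_zero] at h2
    exact (hψ a).trans h2
  have h2 : ∀ x : A, ‖f x‖ ^ 2 / ‖f‖ ^ 2 ≤ ψ (star x * x) := by
    intro x
    have h3 := (hψ (-(star x * x))).trans (hple (-(star x * x)) ⟨1, fun _ => x⟩)
    simp only [q, Finset.univ_unique, Finset.sum_singleton, neg_add_cancel, norm_zero, zero_sub,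
      map_neg] at h3
    linarith
  refine ⟨ψ, h1, fun x => le_trans (by positivity) (h2 x), fun x => ?_⟩
  rcases eq_or_ne ‖f‖ 0 with h0 | h0
  · have : f = 0 := norm_eq_zero.1 h0
    rw [this]; simp
  · have h3 := h2 x
    rw [div_le_iff₀ (by positivity)] at h3
    linarith

/-- complex linear extension -/
noncomputable def cext (ψ : A →ₗ[ℝ] ℝ) : A →ₗ[ℂ] ℂ where
  toFun a := (ψ (ℜ a : A) : ℂ) + I * (ψ (ℑ a : A) : ℂ)
  map_add' a b := by
    simp only [map_add, AddSubgroup.coe_add, Complex.ofReal_add]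
    ring
  map_smul' z a := by
    simp only [realPart_smul, imaginaryPart_smul, map_add, map_sub, AddSubgroup.coe_add,
      AddSubgroupClass.coe_sub, selfAdjoint.val_smul, map_smul, smul_eq_mul, Complex.ofReal_add,
      Complex.ofReal_sub, Complex.ofReal_mul, RingHom.id_apply]
    conv_rhs => rw [← Complex.re_add_im z]
    linear_combination -(z.im : ℂ) * (ψ (ℑ a : A) : ℂ) * Complex.I_mul_I

theorem cext_star_mul (ψ : A →ₗ[ℝ] ℝ) (x : A) : cext ψ (star x * x) = (ψ (star x * x) : ℂ) := by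
  have h : IsSelfAdjoint (star x * x) := IsSelfAdjoint.star_mul_self x
  show (ψ (ℜ (star x * x) : A) : ℂ) + I * (ψ (ℑ (star x * x) : A) : ℂ) = _
  rw [h.coe_realPart, h.imaginaryPart]
  simp

theorem exists_pos (f : A →L[ℂ] ℂ) : ∃ φ : A →ₚ[ℂ] ℂ, (φ 1).re ≤ 1 ∧
    ∀ x : A, ‖f x‖ ^ 2 ≤ ‖f‖ ^ 2 * (φ (star x * x)).re := by
  obtain ⟨ψ, h1, h2, h3⟩ := exists_psi f
  refine ⟨PositiveLinearMap.mk₀ (cext ψ) (fun a ha => ?_), ?_, ?_⟩
  · obtain ⟨b, rfl⟩ := CStarAlgebra.nonneg_iff_eq_star_mul_self.1 ha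
    rw [cext_star_mul]
    exact_mod_cast h2 b
  · show (cext ψ 1).re ≤ 1
    have e : (1 : A) = star 1 * 1 := by simp
    rw [e, cext_star_mul, ← e, Complex.ofReal_re]
    refine (h1 1).trans ?_
    rcases subsingleton_or_nontrivial A with h | h
    · rw [Subsingleton.elim (1 : A) 0, norm_zero]; norm_num
    · exact CStarRing.norm_one.le
  · intro x
    show _ ≤ _ * (cext ψ (star x * x)).re
    rw [cext_star_mul, Complex.ofReal_re]
    exact h3 x

theorem exists_vector_rep' (f : A →L[ℂ] ℂ) :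
    ∃ (R : Rep A) (η ζ : R.H), ‖η‖ ≤ 1 ∧ ‖ζ‖ ≤ ‖f‖ ∧ ∀ x, f x = ⟪ζ, R.π x η⟫_ℂ := by
  obtain ⟨φ, h1, h2⟩ := exists_pos f
  let F0 : φ.PreGNS →ₗ[ℂ] ℂ := (f : A →ₗ[ℂ] ℂ) ∘ₗ φ.ofPreGNS.toLinearMap
  have hF0 : ∀ x : φ.PreGNS, ‖F0 x‖ ≤ ‖f‖ * ‖x‖ := by
    intro x
    have h3 := h2 (φ.ofPreGNS x)
    have h4 : ‖x‖ ^ 2 = (φ (star (φ.ofPreGNS x) * φ.ofPreGNS x)).re := by
      have := φ.preGNS_norm_sq x
      rw [← this]
      norm_cast
    rw [← h4] at h3
    have h5 : ‖F0 x‖ ^ 2 ≤ (‖f‖ * ‖x‖) ^ 2 := by rw [mul_pow]; exact h3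
    exact (pow_le_pow_iff_left₀ (norm_nonneg _) (by positivity) two_ne_zero).1 h5
  let F1 : φ.PreGNS →L[ℂ] ℂ := F0.mkContinuous ‖f‖ hF0
  let e : φ.PreGNS →L[ℂ] φ.GNS := UniformSpace.Completion.toComplL
  have hed : DenseRange e := UniformSpace.Completion.denseRange_coe
  have heu : IsUniformInducing e := UniformSpace.Completion.isUniformInducing_coe _
  let F : φ.GNS →L[ℂ] ℂ := F1.extend e
  have hen : ∀ x : φ.PreGNS, ‖e x‖ = ‖x‖ := fun x => UniformSpace.Completion.norm_coe x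
  have hFe : ∀ x, F (e x) = F1 x := fun x => F1.extend_eq hed heu x
  have hFb : ∀ v : φ.GNS, ‖F v‖ ≤ ‖f‖ * ‖v‖ := by
    refine isClosed_property (p := fun v : φ.GNS => ‖F v‖ ≤ ‖f‖ * ‖v‖) hed ?_ ?_
    · exact isClosed_le F.continuous.norm (continuous_const.mul continuous_norm)
    · intro x
      show ‖F (e x)‖ ≤ ‖f‖ * ‖e x‖
      rw [hFe, hen]
      exact hF0 x
  have hFn : ‖F‖ ≤ ‖f‖ := F.opNorm_le_bound (norm_nonneg _) hFb
  refine ⟨⟨φ.GNS, φ.gnsStarAlgHom⟩, e (φ.toPreGNS 1), (InnerProductSpace.toDual ℂ φ.GNS).symm F,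
    ?_, ?_, ?_⟩
  · have h3 : ‖e (φ.toPreGNS 1)‖ = ‖φ.toPreGNS 1‖ := hen _
    have h4 : ‖φ.toPreGNS 1‖ ^ 2 = (φ 1).re := by
      have := φ.preGNS_norm_sq (φ.toPreGNS 1)
      rw [PositiveLinearMap.ofPreGNS_toPreGNS, star_one, one_mul] at this
      rw [← this]
      norm_cast
    rw [h3]
    have : ‖φ.toPreGNS 1‖ ^ 2 ≤ 1 ^ 2 := by rw [h4]; simpa using h1
    exact (pow_le_pow_iff_left₀ (norm_nonneg _) (by norm_num) two_ne_zero).1 this
  · rw [LinearIsometryEquiv.norm_map]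
    exact hFn
  · intro x
    show f x = ⟪(InnerProductSpace.toDual ℂ φ.GNS).symm F, φ.gnsStarAlgHom x (e (φ.toPreGNS 1))⟫_ℂ
    rw [InnerProductSpace.toDual_symm_apply]
    have h3 : φ.gnsStarAlgHom x (e (φ.toPreGNS 1)) = e (φ.toPreGNS x) := by
      have h5 : φ.gnsStarAlgHom x (e (φ.toPreGNS 1)) =
        φ.gnsNonUnitalStarAlgHom x ((φ.toPreGNS 1 : φ.PreGNS) : φ.GNS) := rfl
      rw [h5, PositiveLinearMap.gnsNonUnitalStarAlgHom_apply_coe]
      simp only [PositiveLinearMap.leftMulMapPreGNS_apply, PositiveLinearMap.ofPreGNS_toPreGNS,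
        mul_one]
      rfl
    rw [h3, hFe]
    rfl

end vec

/-- TARGET -/
theorem exists_vector_rep (f : A →L[ℂ] ℂ) :
    ∃ (R : Rep A) (η ζ : R.H), ‖η‖ ≤ 1 ∧ ‖ζ‖ ≤ ‖f‖ ∧ ∀ x, f x = ⟪ζ, R.π x η⟫_ℂ := by
  let _ := CStarAlgebra.spectralOrder A
  let _ := CStarAlgebra.spectralOrderedRing A
  exact exists_vector_rep' f

end Pool.Agent.Helper234.Sub.SA
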