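import Pool.Agent.Helper234.Sub.S2

set_option autoImplicit false
open scoped ComplexOrder InnerProductSpace TensorProduct

namespace Pool.Agent.Helper234.Sub.SC

open Pool.Agent.Helper234.Sub


variable {A : Type} [CStarAlgebra A] {G : Type} [NormedAddCommGroup G] [InnerProductSpace ℂ G] [CompleteSpace G]
  (ρ : A →⋆ₐ[ℂ] (G →L[ℂ] G))

/-- combinations of fixed first coordinates -/
noncomputable def cmb {n : ℕ} (e : Fin n → A) : (Fin n → Cm ρ) →ₗ[ℂ] A ⊗[ℂ] Cm ρ :=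
  ∑ i, (TensorProduct.mk ℂ A (Cm ρ) (e i)) ∘ₗ (LinearMap.proj i)

theorem cmb_apply {n : ℕ} (e : Fin n → A) (c : Fin n → Cm ρ) :
    cmb ρ e c = ∑ i, e i ⊗ₜ[ℂ] c i := by
  unfold cmb
  rw [LinearMap.sum_apply]
  rfl

theorem FB_le_cmb (V : Submodule ℂ A) {n : ℕ} (b : Module.Basis (Fin n) ℂ V) :
    FB ρ V ≤ LinearMap.range (cmb ρ (fun i => (b i : A))) := by
  unfold FB
  rw [Submodule.map₂_le]
  intro x hx c _
  refine ⟨fun i => b.repr ⟨x, hx⟩ i • c, ?_⟩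
  rw [cmb_apply]
  have h1 := b.sum_repr ⟨x, hx⟩
  have h2 := congrArg (Subtype.val) h1
  rw [TensorProduct.mk_apply]
  conv_rhs => rw [show x = ((⟨x, hx⟩ : V) : A) from rfl, ← h2]
  rw [Submodule.coe_sum, TensorProduct.sum_tmul]
  apply Finset.sum_congr rfl
  intro i _
  rw [Submodule.coe_smul, TensorProduct.smul_tmul]

/-- TARGET 1 -/
theorem mu_le (V : Submodule ℂ A) [FiniteDimensional ℂ V]
    (hA : ∀ f : A →L[ℂ] ℂ, ∃ (R : Rep A) (η ζ : R.H), ‖η‖ ≤ 1 ∧ ‖ζ‖ ≤ ‖f‖ ∧ ∀ x, f x = ⟪ζ, R.π x η⟫_ℂ)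
    (hB : ∃ b : Module.Basis (Fin (Module.finrank ℂ V)) ℂ V, (∀ i, ‖b i‖ ≤ 1) ∧ ∀ i x, ‖b.repr x i‖ ≤ ‖x‖)
    (w : A ⊗[ℂ] Cm ρ) (hw : w ∈ FB ρ V) (C : ℝ)
    (hC : 0 ≤ C) (hth : ∀ (R : Rep A) (v : R.H ⊗[ℂ] G), ‖th ρ R w v‖ ≤ C * ‖v‖) :
    ‖mu ρ w‖ ≤ Module.finrank ℂ V * C := by
  obtain ⟨b, hb1, hb2⟩ := hB
  obtain ⟨c, hc⟩ := FB_le_cmb ρ V b hw
  rw [cmb_apply] at hc
  have hci : ∀ i, ‖(c i : G →L[ℂ] G)‖ ≤ C := by
    intro i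
    let f0 : V →L[ℂ] ℂ := LinearMap.mkContinuous (b.coord i) 1 (by
      intro x
      rw [one_mul]
      exact hb2 i x)
    have hf0 : ‖f0‖ ≤ 1 := LinearMap.mkContinuous_norm_le _ zero_le_one _
    obtain ⟨f, hf1, hf2⟩ := exists_extension_norm_eq V f0
    obtain ⟨R, η, ζ, hη, hζ, hf⟩ := hA f
    have hζ1 : ‖ζ‖ ≤ 1 := hζ.trans (hf2.le.trans hf0)
    have hfe : ∀ j, f (b j : A) = if j = i then 1 else 0 := by
      intro j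
      rw [hf1]
      change b.coord i (b j) = _
      rw [Module.Basis.coord_apply, Module.Basis.repr_self, Finsupp.single_apply]
    have hkey : ∀ g g' : G, ⟪(ζ ⊗ₜ[ℂ] g' : R.H ⊗[ℂ] G), th ρ R w (η ⊗ₜ[ℂ] g)⟫_ℂ
        = ⟪g', (c i : G →L[ℂ] G) g⟫_ℂ := by
      intro g g'
      rw [← hc, map_sum, LinearMap.sum_apply, inner_sum]
      rw [Finset.sum_eq_single i]
      · rw [th_tmul, TensorProduct.map_tmul, TensorProduct.inner_tmul]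
        change ⟪ζ, R.π (b i : A) η⟫_ℂ * ⟪g', (c i : G →L[ℂ] G) g⟫_ℂ = _
        rw [← hf, hfe, if_pos rfl, one_mul]
      · intro j _ hj
        rw [th_tmul, TensorProduct.map_tmul, TensorProduct.inner_tmul]
        change ⟪ζ, R.π (b j : A) η⟫_ℂ * ⟪g', (c j : G →L[ℂ] G) g⟫_ℂ = _
        rw [← hf, hfe, if_neg hj, zero_mul]
      · intro h
        exact absurd (Finset.mem_univ i) h
    apply ContinuousLinearMap.opNorm_le_bound _ hC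
    intro g
    set g' := (c i : G →L[ℂ] G) g with hg'
    have h1 : ‖⟪g', g'⟫_ℂ‖ ≤ (C * ‖g‖) * ‖g'‖ := by
      rw [hg', ← hkey g g']
      have n1 : ‖(ζ ⊗ₜ[ℂ] g' : R.H ⊗[ℂ] G)‖ = ‖ζ‖ * ‖g'‖ := TensorProduct.norm_tmul ζ g'
      have n2 : ‖(η ⊗ₜ[ℂ] g : R.H ⊗[ℂ] G)‖ = ‖η‖ * ‖g‖ := TensorProduct.norm_tmul η g
      calc ‖⟪(ζ ⊗ₜ[ℂ] g' : R.H ⊗[ℂ] G), th ρ R w (η ⊗ₜ[ℂ] g)⟫_ℂ‖
          ≤ ‖(ζ ⊗ₜ[ℂ] g' : R.H ⊗[ℂ] G)‖ * ‖th ρ R w (η ⊗ₜ[ℂ] g)‖ :=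
            norm_inner_le_norm (𝕜 := ℂ) (E := R.H ⊗[ℂ] G) (ζ ⊗ₜ[ℂ] g') (th ρ R w (η ⊗ₜ[ℂ] g))
        _ ≤ (‖ζ‖ * ‖g'‖) * (C * (‖η‖ * ‖g‖)) := by
            rw [n1, ← n2]
            exact mul_le_mul_of_nonneg_left (hth R _) (by positivity)
        _ ≤ (1 * ‖g'‖) * (C * (1 * ‖g‖)) := by gcongr
        _ = (C * ‖g‖) * ‖g'‖ := by ring
    rw [inner_self_eq_norm_sq_to_K] at h1
    simp only [norm_pow, Complex.norm_real, norm_norm, RCLike.ofReal_eq_complex_ofReal] at h1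
    by_cases h0 : ‖g'‖ = 0
    · rw [h0]; positivity
    · have hpos : 0 < ‖g'‖ := lt_of_le_of_ne (norm_nonneg _) (Ne.symm h0)
      have h2 : ‖g'‖ * ‖g'‖ ≤ (C * ‖g‖) * ‖g'‖ := by
        rw [← pow_two]; exact h1
      exact le_of_mul_le_mul_right h2 hpos
  have hmu : mu ρ w = ∑ i, ρ (b i : A) * (c i : G →L[ℂ] G) := by
    rw [← hc, map_sum]
    apply Finset.sum_congr rfl
    intro i _
    rw [mu_tmul]
  rw [hmu]
  calc ‖∑ i, ρ (b i : A) * (c i : G →L[ℂ] G)‖ ≤ ∑ i, ‖ρ (b i : A) * (c i : G →L[ℂ] G)‖ :=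
        norm_sum_le _ _
    _ ≤ ∑ _i : Fin (Module.finrank ℂ V), C := by
        apply Finset.sum_le_sum
        intro i _
        have h1 : ‖ρ (b i : A)‖ ≤ 1 := (NonUnitalStarAlgHom.norm_apply_le ρ _).trans (hb1 i)
        calc ‖ρ (b i : A) * (c i : G →L[ℂ] G)‖ ≤ ‖ρ (b i : A)‖ * ‖(c i : G →L[ℂ] G)‖ := norm_mul_le _ _
          _ ≤ 1 * C := mul_le_mul h1 (hci i) (norm_nonneg _) zero_le_one
          _ = C := one_mul C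
    _ = Module.finrank ℂ V * C := by simp

theorem FB_mul {V W U : Submodule ℂ A} (h : ∀ x ∈ V, ∀ y ∈ W, x * y ∈ U) {a b : A ⊗[ℂ] Cm ρ}
    (ha : a ∈ FB ρ V) (hb : b ∈ FB ρ W) : a * b ∈ FB ρ U := by
  have h1 : FB ρ V * FB ρ W ≤ FB ρ U := by
    unfold FB
    rw [Submodule.map₂_eq_span_image2 (TensorProduct.mk ℂ A (Cm ρ)) V,
      Submodule.map₂_eq_span_image2 (TensorProduct.mk ℂ A (Cm ρ)) W, Submodule.span_mul_span,
      Submodule.span_le]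
    rintro _ ⟨_, ⟨x, hx, c, _, rfl⟩, _, ⟨y, hy, d, _, rfl⟩, rfl⟩
    simp only [TensorProduct.mk_apply, Algebra.TensorProduct.tmul_mul_tmul]
    exact Submodule.apply_mem_map₂ _ (h x hx y hy) Submodule.mem_top
  exact h1 (Submodule.mul_mem_mul ha hb)

/-- TARGET 2 -/
theorem FB_pow (F : ℕ → Submodule ℂ A) (h0 : F 0 = Submodule.span ℂ {(1 : A)})
    (hmul : ∀ m n : ℕ, ∀ x ∈ F m, ∀ y ∈ F n, x * y ∈ F (m + n)) (k : ℕ) (w : A ⊗[ℂ] Cm ρ)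
    (hw : w ∈ FB ρ (F k)) (n : ℕ) : w ^ n ∈ FB ρ (F (k * n)) := by
  induction n with
  | zero =>
    rw [pow_zero, mul_zero, Algebra.TensorProduct.one_def]
    apply Submodule.apply_mem_map₂ _ _ Submodule.mem_top
    rw [h0]
    exact Submodule.mem_span_singleton_self _
  | succ n ih =>
    rw [pow_succ, Nat.mul_succ]
    exact FB_mul ρ (hmul _ _) ih hw

/-- TARGET 3 -/
theorem growth (F : ℕ → Submodule ℂ A) (hfd : ∀ n : ℕ, FiniteDimensional ℂ (F n))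
    (hmu : ∀ (V : Submodule ℂ A) [FiniteDimensional ℂ V] (w : A ⊗[ℂ] Cm ρ), w ∈ FB ρ V → ∀ C : ℝ, 0 ≤ C →
      (∀ (R : Rep A) (v : R.H ⊗[ℂ] G), ‖th ρ R w v‖ ≤ C * ‖v‖) → ‖mu ρ w‖ ≤ Module.finrank ℂ V * C)
    (hpow : ∀ (k : ℕ) (w : A ⊗[ℂ] Cm ρ), w ∈ FB ρ (F k) → ∀ n : ℕ, w ^ n ∈ FB ρ (F (k * n)))
    (hgr : Filter.Tendsto (fun n : ℕ => ((Module.finrank ℂ (F n) : ℕ) : ℝ) ^ (1 / (n : ℝ)))
      Filter.atTop (nhds 1)) (k : ℕ) (y : A ⊗[ℂ] Cm ρ) (hy : y ∈ FB ρ (F k))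
    (hsa : IsSelfAdjoint (mu ρ y)) (L : ℝ) (hL : 0 ≤ L)
    (hbd : ∀ (n : ℕ) (R : Rep A) (v : R.H ⊗[ℂ] G), ‖th ρ R (y ^ n) v‖ ≤ L ^ n * ‖v‖) : ‖mu ρ y‖ ≤ L := by
  have h1 : ∀ s : ℕ, ‖mu ρ y‖ ^ (2 ^ s) ≤ Module.finrank ℂ (F (k * 2 ^ s)) * L ^ (2 ^ s) := by
    intro s
    have h2 := hsa.nnnorm_pow_two_pow s
    have h3 : ‖mu ρ y ^ 2 ^ s‖ = ‖mu ρ y‖ ^ 2 ^ s := by
      have := congrArg NNReal.toReal h2
      simpa using this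
    rw [← h3, ← map_pow]
    have := hfd (k * 2 ^ s)
    exact hmu (F (k * 2 ^ s)) (y ^ 2 ^ s) (hpow k y hy _) (L ^ 2 ^ s) (by positivity)
      (fun R v => hbd _ R v)
  have h2 : ∀ ε : ℝ, 0 < ε → ‖mu ρ y‖ ≤ (1 + ε) ^ (k + 1) * L := by
    intro ε hε
    have e1 : ∀ᶠ n : ℕ in Filter.atTop,
        ((Module.finrank ℂ (F n) : ℕ) : ℝ) ^ (1 / (n : ℝ)) < 1 + ε :=
      hgr.eventually_lt_const (by linarith)
    have e2 : ∀ᶠ n : ℕ in Filter.atTop, ((Module.finrank ℂ (F 0) : ℕ) : ℝ) ≤ (1 + ε) ^ n :=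
      (tendsto_pow_atTop_atTop_of_one_lt (by linarith : 1 < 1 + ε)).eventually_ge_atTop _
    obtain ⟨N, hN⟩ := Filter.eventually_atTop.1 (e1.and e2)
    set s := N with hs
    have hsN : N ≤ 2 ^ s := Nat.lt_two_pow_self.le
    have hd : ((Module.finrank ℂ (F (k * 2 ^ s)) : ℕ) : ℝ) ≤ (1 + ε) ^ ((k + 1) * 2 ^ s) := by
      rcases Nat.eq_zero_or_pos k with hk | hk
      · rw [hk, zero_mul, zero_add, one_mul]
        exact (hN _ hsN).2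
      · have hm : N ≤ k * 2 ^ s := hsN.trans (Nat.le_mul_of_pos_left _ hk)
        have hm0 : k * 2 ^ s ≠ 0 := by positivity
        have h3 := (hN _ hm).1
        have h4 : ((Module.finrank ℂ (F (k * 2 ^ s)) : ℕ) : ℝ)
            = (((Module.finrank ℂ (F (k * 2 ^ s)) : ℕ) : ℝ) ^ (1 / ((k * 2 ^ s : ℕ) : ℝ)))
              ^ (k * 2 ^ s) := by
          rw [one_div, Real.rpow_inv_natCast_pow (Nat.cast_nonneg _) hm0]
        rw [h4]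
        calc _ ≤ (1 + ε) ^ (k * 2 ^ s) := pow_le_pow_left₀ (by positivity) h3.le _
          _ ≤ (1 + ε) ^ ((k + 1) * 2 ^ s) :=
            pow_le_pow_right₀ (by linarith) (Nat.mul_le_mul_right _ (Nat.le_succ k))
    have h5 : ‖mu ρ y‖ ^ (2 ^ s) ≤ ((1 + ε) ^ (k + 1) * L) ^ (2 ^ s) := by
      calc ‖mu ρ y‖ ^ (2 ^ s) ≤ Module.finrank ℂ (F (k * 2 ^ s)) * L ^ (2 ^ s) := h1 s
        _ ≤ (1 + ε) ^ ((k + 1) * 2 ^ s) * L ^ (2 ^ s) :=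
          mul_le_mul_of_nonneg_right hd (by positivity)
        _ = ((1 + ε) ^ (k + 1) * L) ^ (2 ^ s) := by rw [mul_pow, ← pow_mul]
    exact le_of_pow_le_pow_left₀ (by positivity) (by positivity) h5
  have h3 : Filter.Tendsto (fun ε : ℝ => (1 + ε) ^ (k + 1) * L) (nhdsWithin 0 (Set.Ioi 0))
      (nhds L) := by
    have hc : Continuous (fun ε : ℝ => (1 + ε) ^ (k + 1) * L) := by fun_prop
    have h4 := (hc.tendsto 0).mono_left (nhdsWithin_le_nhds (s := Set.Ioi 0))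
    simpa using h4
  refine ge_of_tendsto h3 ?_
  filter_upwards [self_mem_nhdsWithin] with ε hε
  exact h2 ε hε

end Pool.Agent.Helper234.Sub.SC
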