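import Pool.Agent.Helper234.Sub.S2

set_option autoImplicit false
open scoped ComplexOrder InnerProductSpace TensorProduct

namespace Pool.Agent.Helper234.Sub.SD

open Pool.Agent.Helper234.Sub


variable {A : Type} [CStarAlgebra A] {G : Type} [NormedAddCommGroup G] [InnerProductSpace ℂ G] [CompleteSpace G]
  (ρ : A →⋆ₐ[ℂ] (G →L[ℂ] G))

lemma map_adj {H G : Type} [NormedAddCommGroup H] [InnerProductSpace ℂ H] [CompleteSpace H]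
    [NormedAddCommGroup G] [InnerProductSpace ℂ G] [CompleteSpace G]
    (x : H →L[ℂ] H) (b : G →L[ℂ] G) (u v : H ⊗[ℂ] G) :
    ⟪TensorProduct.map (x : H →ₗ[ℂ] H) (b : G →ₗ[ℂ] G) u, v⟫_ℂ =
      ⟪u, TensorProduct.map ((star x : H →L[ℂ] H) : H →ₗ[ℂ] H)
        ((star b : G →L[ℂ] G) : G →ₗ[ℂ] G) v⟫_ℂ := by
  induction u using TensorProduct.induction_on with
  | zero => simp
  | add u u' hu hu' => rw [map_add, inner_add_left, inner_add_left, hu, hu']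
  | tmul p q =>
    induction v using TensorProduct.induction_on with
    | zero => simp
    | add v v' hv hv' => rw [map_add, inner_add_right, inner_add_right, hv, hv']
    | tmul p' q' =>
      rw [TensorProduct.map_tmul, TensorProduct.map_tmul, TensorProduct.inner_tmul,
        TensorProduct.inner_tmul]
      simp only [ContinuousLinearMap.coe_coe, ContinuousLinearMap.star_eq_adjoint,
        ContinuousLinearMap.adjoint_inner_right]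

lemma aux_re {E : Type} [NormedAddCommGroup E] [InnerProductSpace ℂ E] (c : ℝ) (v p q : E)
    (hq : ⟪v, q⟫_ℂ = ⟪p, v⟫_ℂ) :
    (⟪v, (c : ℂ) • v - (p + q)⟫_ℂ).re = c * ‖v‖ ^ 2 - 2 * (⟪v, p⟫_ℂ).re := by
  have h1 : (⟪p, v⟫_ℂ).re = (⟪v, p⟫_ℂ).re := by
    rw [← inner_conj_symm, Complex.conj_re]
  have h2 : ((c : ℂ) * ⟪v, v⟫_ℂ).re = c * ‖v‖ ^ 2 := by
    rw [Complex.re_ofReal_mul]
    exact congrArg (fun t : ℝ => c * t) (inner_self_eq_norm_sq (𝕜 := ℂ) v)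
  rw [inner_sub_right, inner_smul_right, inner_add_right, hq, Complex.sub_re, Complex.add_re, h1,
    h2]
  ring

lemma aux_sym {E : Type} [NormedAddCommGroup E] [InnerProductSpace ℂ E] (c : ℝ) (u v p q p' q' : E)
    (h1 : ⟪p, v⟫_ℂ = ⟪u, q'⟫_ℂ) (h2 : ⟪q, v⟫_ℂ = ⟪u, p'⟫_ℂ) :
    ⟪(c : ℂ) • u - (p + q), v⟫_ℂ = ⟪u, (c : ℂ) • v - (p' + q')⟫_ℂ := by
  rw [inner_sub_left, inner_sub_right, inner_smul_left, inner_smul_right, inner_add_left,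
    inner_add_right, h1, h2, Complex.conj_ofReal]
  ring

lemma aux_bd {E : Type} [NormedAddCommGroup E] [InnerProductSpace ℂ E] (c : ℝ) (v p : E)
    (h : ‖p‖ ≤ c * ‖v‖) : (⟪v, p⟫_ℂ).re ≤ c * ‖v‖ ^ 2 := by
  refine (Complex.re_le_norm _).trans ((norm_inner_le_norm _ _).trans ?_)
  calc ‖v‖ * ‖p‖ ≤ ‖v‖ * (c * ‖v‖) := by gcongr
    _ = c * ‖v‖ ^ 2 := by ring

lemma pi_norm (R : Rep A) (a : A) : ‖R.π a‖ ≤ ‖a‖ := NonUnitalStarAlgHom.norm_apply_le R.π a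

/-- the adjoint of an element of the commutant -/
noncomputable def sb (b : Cm ρ) : Cm ρ := ⟨star b.1, star_mem_Cm ρ b.2⟩

lemma th_adj (R : Rep A) {m : ℕ} (a : Fin m → A) (b : Fin m → Cm ρ) (u v : R.H ⊗[ℂ] G) :
    ⟪th ρ R (∑ l, a l ⊗ₜ b l) u, v⟫_ℂ = ⟪u, th ρ R (∑ l, star (a l) ⊗ₜ sb ρ (b l)) v⟫_ℂ := by
  rw [map_sum, map_sum, LinearMap.sum_apply, LinearMap.sum_apply, sum_inner, inner_sum]
  refine Finset.sum_congr rfl fun l _ => ?_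
  rw [th_tmul, th_tmul, map_adj, map_star]
  rfl

lemma th_bound (hmapb : ∀ {H G : Type} [NormedAddCommGroup H] [InnerProductSpace ℂ H] [NormedAddCommGroup G]
      [InnerProductSpace ℂ G] (x : H →L[ℂ] H) (b : G →L[ℂ] G) (v : H ⊗[ℂ] G),
      ‖TensorProduct.map (x : H →ₗ[ℂ] H) (b : G →ₗ[ℂ] G) v‖ ≤ ‖x‖ * ‖b‖ * ‖v‖)
    (R : Rep A) {m : ℕ} (a : Fin m → A) (b : Fin m → Cm ρ) (v : R.H ⊗[ℂ] G) :
    ‖th ρ R (∑ l, a l ⊗ₜ b l) v‖ ≤ (∑ l, ‖a l‖ * ‖(b l).1‖) * ‖v‖ := by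
  rw [map_sum, LinearMap.sum_apply, Finset.sum_mul]
  refine (norm_sum_le _ _).trans (Finset.sum_le_sum fun l _ => ?_)
  rw [th_tmul]
  refine (hmapb (R.π (a l)) (b l).1 v).trans ?_
  gcongr
  exact pi_norm R (a l)

lemma mu_star {m : ℕ} (a : Fin m → A) (b : Fin m → Cm ρ) :
    star (mu ρ (∑ l, a l ⊗ₜ b l)) = mu ρ (∑ l, star (a l) ⊗ₜ sb ρ (b l)) := by
  rw [map_sum, map_sum, star_sum]
  refine Finset.sum_congr rfl fun l _ => ?_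
  rw [mu_tmul, mu_tmul, star_mul, ← map_star]
  exact ((mem_Cm ρ _).mp (sb ρ (b l)).2 (star (a l))).symm

/-- TARGET -/
theorem pos_main (F : ℕ → Submodule ℂ A) (hmono : Monotone F) (h0 : F 0 = Submodule.span ℂ {(1 : A)})
    (hstar : ∀ n : ℕ, ∀ x ∈ F n, star x ∈ F n)
    (hgrowth : ∀ (k : ℕ) (y : A ⊗[ℂ] Cm ρ), y ∈ FB ρ (F k) → IsSelfAdjoint (mu ρ y) → ∀ L : ℝ, 0 ≤ L →
      (∀ (n : ℕ) (R : Rep A) (v : R.H ⊗[ℂ] G), ‖th ρ R (y ^ n) v‖ ≤ L ^ n * ‖v‖) → ‖mu ρ y‖ ≤ L)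
    (hpowb : ∀ {E : Type} [NormedAddCommGroup E] [InnerProductSpace ℂ E] (y : E →ₗ[ℂ] E) (L : ℝ), 0 ≤ L →
      (∀ u v, ⟪y u, v⟫_ℂ = ⟪u, y v⟫_ℂ) → (∀ v, 0 ≤ (⟪v, y v⟫_ℂ).re) →
      (∀ v, (⟪v, y v⟫_ℂ).re ≤ L * ‖v‖ ^ 2) → ∀ (n : ℕ) (v : E), ‖(y ^ n) v‖ ≤ L ^ n * ‖v‖)
    (hmapb : ∀ {H G : Type} [NormedAddCommGroup H] [InnerProductSpace ℂ H] [NormedAddCommGroup G]
      [InnerProductSpace ℂ G] (x : H →L[ℂ] H) (b : G →L[ℂ] G) (v : H ⊗[ℂ] G),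
      ‖TensorProduct.map (x : H →ₗ[ℂ] H) (b : G →ₗ[ℂ] G) v‖ ≤ ‖x‖ * ‖b‖ * ‖v‖)
    (k m : ℕ) (a : Fin m → A) (ha : ∀ l, a l ∈ F k) (b : Fin m → Cm ρ)
    (hpos : ∀ (R : Rep A) (v : R.H ⊗[ℂ] G), 0 ≤ (⟪v, th ρ R (∑ l, a l ⊗ₜ b l) v⟫_ℂ).re) (v : G) :
    0 ≤ (⟪v, mu ρ (∑ l, a l ⊗ₜ b l) v⟫_ℂ).re := by
  set z : A ⊗[ℂ] Cm ρ := ∑ l, a l ⊗ₜ b l with hz
  set zd : A ⊗[ℂ] Cm ρ := ∑ l, star (a l) ⊗ₜ sb ρ (b l) with hzd
  set L1 : ℝ := ∑ l, ‖a l‖ * ‖(b l).1‖ with hL1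
  have hL1n : 0 ≤ L1 := Finset.sum_nonneg fun l _ => by positivity
  have hL0n : 0 ≤ 2 * L1 := by positivity
  set y : A ⊗[ℂ] Cm ρ := ((2 * L1 : ℝ) : ℂ) • 1 - (z + zd) with hy
  have hsb : ∀ l, sb ρ (sb ρ (b l)) = b l := fun l => Subtype.ext (star_star _)
  have hadj1 : ∀ (R : Rep A) (u v : R.H ⊗[ℂ] G), ⟪th ρ R z u, v⟫_ℂ = ⟪u, th ρ R zd v⟫_ℂ :=
    fun R u v => th_adj ρ R a b u v
  have hadj2 : ∀ (R : Rep A) (u v : R.H ⊗[ℂ] G), ⟪th ρ R zd u, v⟫_ℂ = ⟪u, th ρ R z v⟫_ℂ := by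
    intro R u v
    have h := th_adj ρ R (fun l => star (a l)) (fun l => sb ρ (b l)) u v
    simp only [star_star, hsb] at h
    exact h
  have hthy : ∀ (R : Rep A) (v : R.H ⊗[ℂ] G),
      th ρ R y v = ((2 * L1 : ℝ) : ℂ) • v - (th ρ R z v + th ρ R zd v) := by
    intro R v
    rw [hy, map_sub, map_smul, map_one, map_add]
    rfl
  have hmem : y ∈ FB ρ (F k) := by
    have h1 : (1 : A) ∈ F k := hmono (Nat.zero_le k) (h0 ▸ Submodule.mem_span_singleton_self _)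
    have h2 : ∀ x ∈ F k, ∀ c : Cm ρ, x ⊗ₜ[ℂ] c ∈ FB ρ (F k) := fun x hx c =>
      Submodule.apply_mem_map₂ (TensorProduct.mk ℂ A (Cm ρ)) hx Submodule.mem_top
    rw [hy]
    apply Submodule.sub_mem
    · apply Submodule.smul_mem
      exact h2 1 h1 1
    · apply Submodule.add_mem
      · exact Submodule.sum_mem _ fun l _ => h2 _ (ha l) _
      · exact Submodule.sum_mem _ fun l _ => h2 _ (hstar k _ (ha l)) _
  have hmustar : star (mu ρ z) = mu ρ zd := mu_star ρ a b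
  have hmuy : mu ρ y = ((2 * L1 : ℝ) : ℂ) • 1 - (mu ρ z + star (mu ρ z)) := by
    rw [hy, map_sub, map_smul, map_one, map_add, hmustar]
  have hsa : IsSelfAdjoint (mu ρ y) := by
    rw [hmuy, IsSelfAdjoint, star_sub, star_smul, star_one, star_add, star_star,
      add_comm (star (mu ρ z))]
    congr 1
    simp
  have hre : ∀ (R : Rep A) (v : R.H ⊗[ℂ] G),
      (⟪v, th ρ R y v⟫_ℂ).re = 2 * L1 * ‖v‖ ^ 2 - 2 * (⟪v, th ρ R z v⟫_ℂ).re := by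
    intro R v
    rw [hthy]
    exact aux_re (2 * L1) v (th ρ R z v) (th ρ R zd v) (hadj1 R v v).symm
  have hbd : ∀ (R : Rep A) (v : R.H ⊗[ℂ] G), (⟪v, th ρ R z v⟫_ℂ).re ≤ L1 * ‖v‖ ^ 2 := by
    intro R v
    exact aux_bd L1 v (th ρ R z v) (th_bound ρ hmapb R a b v)
  have hmu : ‖mu ρ y‖ ≤ 2 * L1 := by
    refine hgrowth k y hmem hsa (2 * L1) hL0n fun n R v => ?_
    rw [map_pow]
    refine hpowb (th ρ R y) (2 * L1) hL0n ?_ ?_ ?_ n v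
    · intro u v
      rw [hthy, hthy]
      exact aux_sym (2 * L1) u v _ _ _ _ (hadj1 R u v) (hadj2 R u v)
    · intro v
      have h := hbd R v
      have h' := hre R v
      linarith
    · intro v
      have h := hpos R v
      have h' := hre R v
      linarith
  have h1 : (⟪v, mu ρ y v⟫_ℂ).re ≤ 2 * L1 * ‖v‖ ^ 2 := by
    apply aux_bd
    exact (ContinuousLinearMap.le_opNorm _ _).trans (by gcongr)
  have h2 : (⟪v, mu ρ y v⟫_ℂ).re = 2 * L1 * ‖v‖ ^ 2 - 2 * (⟪v, mu ρ z v⟫_ℂ).re := by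
    have h3 : mu ρ y v = ((2 * L1 : ℝ) : ℂ) • v - (mu ρ z v + (star (mu ρ z)) v) := by
      rw [hmuy]
      rfl
    rw [h3]
    apply aux_re
    rw [ContinuousLinearMap.star_eq_adjoint, ContinuousLinearMap.adjoint_inner_right]
  rw [h2] at h1
  linarith

end Pool.Agent.Helper234.Sub.SD
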