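import Pool.Agent.Helper234.Sub.S2

set_option autoImplicit false
open scoped ComplexOrder InnerProductSpace TensorProduct

namespace Pool.Agent.Helper234.Sub.SE

open Pool.Agent.Helper234.Sub


variable {A : Type} [CStarAlgebra A]


theorem pi_star_inner (R : Rep A) (x : A) (u v : R.H) :
    ⟪u, R.π (star x) v⟫_ℂ = ⟪R.π x u, v⟫_ℂ := by
  rw [map_star, ContinuousLinearMap.star_eq_adjoint, ContinuousLinearMap.adjoint_inner_right]

/-- cyclic representation dominating finitely many vectors -/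
theorem exists_cyclic {ι : Type} [Fintype ι] (R : ι → Rep A) (v : ∀ l, (R l).H) :
    ∃ (S : Rep A) (Ω : S.H), Dense (Set.range fun x => S.π x Ω) ∧
      ∀ l x, ‖(R l).π x (v l)‖ ≤ ‖S.π x Ω‖ := by
  let _ : PartialOrder A := CStarAlgebra.spectralOrder A
  let _ : StarOrderedRing A := CStarAlgebra.spectralOrderedRing A
  let φ₀ : A →ₗ[ℂ] ℂ :=
    { toFun := fun a => ∑ l, ⟪v l, (R l).π a (v l)⟫_ℂ
      map_add' := by
        intro a b
        rw [← Finset.sum_add_distrib]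
        refine Finset.sum_congr rfl fun l _ => ?_
        rw [map_add, ContinuousLinearMap.add_apply, inner_add_right]
      map_smul' := by
        intro c a
        rw [RingHom.id_apply, smul_eq_mul, Finset.mul_sum]
        refine Finset.sum_congr rfl fun l _ => ?_
        rw [map_smul, ContinuousLinearMap.smul_apply, inner_smul_right] }
  have hsq : ∀ a : A, φ₀ (star a * a) = ((∑ l, ‖(R l).π a (v l)‖ ^ 2 : ℝ) : ℂ) := by
    intro a
    show ∑ l, ⟪v l, (R l).π (star a * a) (v l)⟫_ℂ = _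
    rw [Complex.ofReal_sum]
    refine Finset.sum_congr rfl fun l _ => ?_
    rw [map_mul, ContinuousLinearMap.mul_apply, pi_star_inner, inner_self_eq_norm_sq_to_K]
    simp
  let φ : A →ₚ[ℂ] ℂ := PositiveLinearMap.mk₀ φ₀ (by
    intro a ha
    obtain ⟨c, rfl⟩ := CStarAlgebra.nonneg_iff_eq_star_mul_self.mp ha
    rw [hsq, Complex.zero_le_real]
    exact Finset.sum_nonneg fun _ _ => by positivity)
  let S : Rep A := { H := φ.GNS, π := φ.gnsStarAlgHom }
  let Ω : φ.GNS := ((φ.toPreGNS 1 : φ.PreGNS) : φ.GNS)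
  have hS : ∀ x, S.π x Ω = ((φ.toPreGNS x : φ.PreGNS) : φ.GNS) := by
    intro x
    show φ.gnsNonUnitalStarAlgHom x ((φ.toPreGNS 1 : φ.PreGNS) : φ.GNS) = _
    rw [PositiveLinearMap.gnsNonUnitalStarAlgHom_apply_coe]
    simp
  refine ⟨S, Ω, ?_, ?_⟩
  · have h1 := UniformSpace.Completion.denseRange_coe (α := φ.PreGNS)
    have h2 : (Set.range fun x => S.π x Ω) = Set.range ((↑) : φ.PreGNS → φ.GNS) := by
      ext z
      constructor
      · rintro ⟨x, rfl⟩
        exact ⟨φ.toPreGNS x, (hS x).symm⟩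
      · rintro ⟨x, rfl⟩
        exact ⟨φ.ofPreGNS x, hS _⟩
    rw [h2]
    exact h1
  · intro l x
    rw [hS]
    have h3 : ‖((φ.toPreGNS x : φ.PreGNS) : φ.GNS)‖ = ‖(φ.toPreGNS x : φ.PreGNS)‖ :=
      UniformSpace.Completion.norm_coe _
    have h4 : ((‖(φ.toPreGNS x : φ.PreGNS)‖ ^ 2 : ℝ) : ℂ) =
        ((∑ l, ‖(R l).π x (v l)‖ ^ 2 : ℝ) : ℂ) := by
      rw [← hsq]
      have := φ.preGNS_norm_sq (φ.toPreGNS x)
      rw [PositiveLinearMap.ofPreGNS_toPreGNS] at this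
      push_cast
      exact this
    have h5 : ‖(φ.toPreGNS x : φ.PreGNS)‖ ^ 2 = ∑ l, ‖(R l).π x (v l)‖ ^ 2 := by
      exact_mod_cast h4
    rw [show (‖((φ.toPreGNS x : φ.PreGNS) : φ.GNS)‖ : ℝ) = ‖(φ.toPreGNS x : φ.PreGNS)‖ from h3]
    refine (sq_le_sq₀ (norm_nonneg _) (norm_nonneg _)).1 ?_
    rw [h5]
    exact Finset.single_le_sum (f := fun l => ‖(R l).π x (v l)‖ ^ 2) (fun _ _ => by positivity)
      (Finset.mem_univ l)

/-- the intertwiner -/
theorem exists_intertwiner (S R : Rep A) (Ω : S.H) (v : R.H)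
    (hd : Dense (Set.range fun x => S.π x Ω)) (hle : ∀ x, ‖R.π x v‖ ≤ ‖S.π x Ω‖) :
    ∃ W : S.H →L[ℂ] R.H, (∀ x, W (S.π x Ω) = R.π x v) ∧ ∀ a u, W (S.π a u) = R.π a (W u) := by
  let e : A →ₗ[ℂ] S.H :=
    { toFun := fun x => S.π x Ω
      map_add' := by intro a b; rw [map_add, ContinuousLinearMap.add_apply]
      map_smul' := by intro c a; rw [map_smul, ContinuousLinearMap.smul_apply, RingHom.id_apply] }
  let f : A →ₗ[ℂ] R.H :=
    { toFun := fun x => R.π x v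
      map_add' := by intro a b; rw [map_add, ContinuousLinearMap.add_apply]
      map_smul' := by intro c a; rw [map_smul, ContinuousLinearMap.smul_apply, RingHom.id_apply] }
  have he : DenseRange e := hd
  have hn : ∃ C, ∀ x, ‖f x‖ ≤ C * ‖e x‖ := ⟨1, fun x => by rw [one_mul]; exact hle x⟩
  have hW : ∀ x, f.extendOfNorm e (S.π x Ω) = R.π x v := fun x =>
    LinearMap.extendOfNorm_eq he hn x
  refine ⟨f.extendOfNorm e, hW, ?_⟩
  intro a u
  have hcl : IsClosed {u : S.H | f.extendOfNorm e (S.π a u) = R.π a (f.extendOfNorm e u)} :=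
    isClosed_eq (by fun_prop) (by fun_prop)
  refine isClosed_property he hcl (fun x => ?_) u
  show f.extendOfNorm e (S.π a (S.π x Ω)) = R.π a (f.extendOfNorm e (S.π x Ω))
  rw [hW, ← ContinuousLinearMap.mul_apply, ← map_mul, hW, map_mul, ContinuousLinearMap.mul_apply]

/-- TARGET -/
theorem exists_commutant
    (hA : ∀ f : A →L[ℂ] ℂ, ∃ (R : Rep A) (η ζ : R.H), ‖η‖ ≤ 1 ∧ ‖ζ‖ ≤ ‖f‖ ∧ ∀ x, f x = ⟪ζ, R.π x η⟫_ℂ)
    (m : ℕ) (f : Fin m → (A →L[ℂ] ℂ)) :
    ∃ (R : Rep A) (Ω : R.H) (b : Fin m → Cm R.π), Dense (Set.range fun x => R.π x Ω) ∧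
      ∀ l x y, f l (star x * y) = ⟪R.π x Ω, (b l).1 (R.π y Ω)⟫_ℂ := by
  choose R η ζ _ _ hf using fun l => hA (f l)
  obtain ⟨S, Ω, hd, hle⟩ := exists_cyclic (ι := Fin m × Bool) (fun l => R l.1)
    (fun l => if l.2 then η l.1 else ζ l.1)
  have hV : ∀ l, ∃ W : S.H →L[ℂ] (R l).H, (∀ x, W (S.π x Ω) = (R l).π x (η l)) ∧
      ∀ a u, W (S.π a u) = (R l).π a (W u) :=
    fun l => exists_intertwiner S (R l) Ω (η l) hd fun x => by simpa using hle (l, true) x
  have hW : ∀ l, ∃ W : S.H →L[ℂ] (R l).H, (∀ x, W (S.π x Ω) = (R l).π x (ζ l)) ∧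
      ∀ a u, W (S.π a u) = (R l).π a (W u) :=
    fun l => exists_intertwiner S (R l) Ω (ζ l) hd fun x => by simpa using hle (l, false) x
  choose V hV1 hV2 using hV
  choose W hW1 hW2 using hW
  refine ⟨S, Ω, fun l => ⟨(ContinuousLinearMap.adjoint (W l)).comp (V l), ?_⟩, hd, ?_⟩
  · rw [mem_Cm]
    intro a
    ext u
    refine ext_inner_left ℂ fun w => ?_
    have e1 : ⟪w, S.π a (ContinuousLinearMap.adjoint (W l) (V l u))⟫_ℂ =
        ⟪(R l).π (star a) (W l w), V l u⟫_ℂ := by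
      rw [← star_star a, pi_star_inner, ContinuousLinearMap.adjoint_inner_right, hW2, star_star]
    have e2 : ⟪w, ContinuousLinearMap.adjoint (W l) (V l (S.π a u))⟫_ℂ =
        ⟪(R l).π (star a) (W l w), V l u⟫_ℂ := by
      rw [ContinuousLinearMap.adjoint_inner_right, hV2, ← pi_star_inner, star_star]
    exact e1.trans e2.symm
  · intro l x y
    show f l (star x * y) = ⟪S.π x Ω, ContinuousLinearMap.adjoint (W l) (V l (S.π y Ω))⟫_ℂ
    rw [ContinuousLinearMap.adjoint_inner_right, hW1, hV1, hf, map_mul,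
      ContinuousLinearMap.mul_apply, pi_star_inner]

end Pool.Agent.Helper234.Sub.SE
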