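import Pool.Agent.Helper234.Sub.S2

set_option autoImplicit false
open scoped ComplexOrder InnerProductSpace TensorProduct

namespace Pool.Agent.Helper234.Sub.SF

open Pool.Agent.Helper234.Sub



variable {A : Type} [CStarAlgebra A]

section blk

variable {E F : Type} [NormedAddCommGroup E] [InnerProductSpace ℂ E] [CompleteSpace E]
  [NormedAddCommGroup F] [InnerProductSpace ℂ F] [CompleteSpace F]

/-- block diagonal operator -/
noncomputable def blk (S : E →L[ℂ] E) (T : F →L[ℂ] F) : WithLp 2 (E × F) →L[ℂ] WithLp 2 (E × F) :=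
  ((WithLp.prodContinuousLinearEquiv 2 ℂ E F).symm : (E × F) →L[ℂ] WithLp 2 (E × F)) ∘L
    (S.prodMap T) ∘L
      ((WithLp.prodContinuousLinearEquiv 2 ℂ E F) : WithLp 2 (E × F) →L[ℂ] (E × F))

lemma blk_apply (S : E →L[ℂ] E) (T : F →L[ℂ] F) (x : WithLp 2 (E × F)) :
    blk S T x = WithLp.toLp 2 (S x.fst, T x.snd) := rfl

lemma blk_star (S : E →L[ℂ] E) (T : F →L[ℂ] F) : blk (star S) (star T) = star (blk S T) := by
  rw [ContinuousLinearMap.star_eq_adjoint, ContinuousLinearMap.star_eq_adjoint,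
    ContinuousLinearMap.star_eq_adjoint, ContinuousLinearMap.eq_adjoint_iff]
  intro x y
  rw [blk_apply, blk_apply, WithLp.prod_inner_apply, WithLp.prod_inner_apply]
  show ⟪ContinuousLinearMap.adjoint S x.fst, y.fst⟫_ℂ + ⟪ContinuousLinearMap.adjoint T x.snd, y.snd⟫_ℂ =
    ⟪x.fst, S y.fst⟫_ℂ + ⟪x.snd, T y.snd⟫_ℂ
  rw [ContinuousLinearMap.adjoint_inner_left, ContinuousLinearMap.adjoint_inner_left]

end blk

/-- direct sum of two representations -/
noncomputable def _root_.Pool.Agent.Helper234.Sub.Rep.sum {A : Type} [CStarAlgebra A] (R R' : Rep A) : Rep A where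
  H := WithLp 2 (R.H × R'.H)
  π :=
    { toFun := fun a => blk (R.π a) (R'.π a)
      map_one' := by
        ext x
        rw [map_one, map_one]
        rfl
      map_mul' := fun a b => by
        ext x
        rw [map_mul, map_mul]
        rfl
      map_zero' := by
        ext x
        rw [map_zero, map_zero]
        rfl
      map_add' := fun a b => by
        ext x
        rw [map_add, map_add]
        rfl
      commutes' := fun r => by
        ext x
        rw [AlgHomClass.commutes, AlgHomClass.commutes]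
        rfl
      map_star' := fun a => by
        rw [map_star, map_star]
        exact blk_star _ _ }

/-- TARGET 1 -/
theorem Dta_add (D D' : Dta A) : ∃ D'' : Dta A, ∀ a, D''.T a = D.T a + D'.T a := by
  have hort : Orthonormal ℂ (Fin.append (fun i => (WithLp.toLp 2 (D.e i, (0 : D'.R.H)) : WithLp 2 (D.R.H × D'.R.H)))
      (fun j => (WithLp.toLp 2 ((0 : D.R.H), D'.e j) : WithLp 2 (D.R.H × D'.R.H)))) := by
    rw [orthonormal_iff_ite]
    have h1 := orthonormal_iff_ite.1 D.he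
    have h2 := orthonormal_iff_ite.1 D'.he
    intro i j
    refine Fin.addCases (fun i => ?_) (fun i => ?_) i <;>
      refine Fin.addCases (fun j => ?_) (fun j => ?_) j
    · rw [Fin.append_left, Fin.append_left, WithLp.prod_inner_apply]
      show ⟪D.e i, D.e j⟫_ℂ + ⟪(0 : D'.R.H), 0⟫_ℂ = _
      rw [inner_zero_left, add_zero, h1]
      simp
    · rw [Fin.append_left, Fin.append_right, WithLp.prod_inner_apply]
      show ⟪D.e i, 0⟫_ℂ + ⟪(0 : D'.R.H), D'.e j⟫_ℂ = _
      rw [inner_zero_right, inner_zero_left, add_zero, if_neg]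
      intro h
      have := congrArg Fin.val h
      simp only [Fin.val_castAdd, Fin.val_natAdd] at this
      omega
    · rw [Fin.append_left, Fin.append_right, WithLp.prod_inner_apply]
      show ⟪(0 : D.R.H), D.e j⟫_ℂ + ⟪D'.e i, (0 : D'.R.H)⟫_ℂ = _
      rw [inner_zero_right, inner_zero_left, add_zero, if_neg]
      intro h
      have := congrArg Fin.val h
      simp only [Fin.val_castAdd, Fin.val_natAdd] at this
      omega
    · rw [Fin.append_right, Fin.append_right, WithLp.prod_inner_apply]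
      show ⟪(0 : D.R.H), 0⟫_ℂ + ⟪D'.e i, D'.e j⟫_ℂ = _
      rw [inner_zero_left, zero_add, h2]
      simp
  obtain ⟨e, he⟩ : ∃ e : Fin (D.r + D'.r) → WithLp 2 (D.R.H × D'.R.H), e =
    (Fin.append (fun i => (WithLp.toLp 2 (D.e i, (0 : D'.R.H)) : WithLp 2 (D.R.H × D'.R.H)))
      (fun j => (WithLp.toLp 2 ((0 : D.R.H), D'.e j) : WithLp 2 (D.R.H × D'.R.H)))) := ⟨_, rfl⟩
  obtain ⟨c, hc⟩ : ∃ c : Fin (D.r + D'.r) → A, c = Fin.append D.c D'.c := ⟨_, rfl⟩
  rw [← he] at hort
  have he1 : ∀ i, e (Fin.castAdd D'.r i) = WithLp.toLp 2 (D.e i, (0 : D'.R.H)) := by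
    intro i
    rw [he, Fin.append_left]
  have he2 : ∀ i, e (Fin.natAdd D.r i) = WithLp.toLp 2 ((0 : D.R.H), D'.e i) := by
    intro i
    rw [he, Fin.append_right]
  have hc1 : ∀ i, c (Fin.castAdd D'.r i) = D.c i := by
    intro i
    rw [hc, Fin.append_left]
  have hc2 : ∀ i, c (Fin.natAdd D.r i) = D'.c i := by
    intro i
    rw [hc, Fin.append_right]
  refine ⟨{ R := D.R.sum D'.R, r := D.r + D'.r, e := e, he := hort, c := c }, fun a => ?_⟩
  have key : ∀ (x y : WithLp 2 (D.R.H × D'.R.H)), ⟪x, (D.R.sum D'.R).π a y⟫_ℂ =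
      ⟪x.fst, D.R.π a y.fst⟫_ℂ + ⟪x.snd, D'.R.π a y.snd⟫_ℂ := by
    intro x y
    exact WithLp.prod_inner_apply x (blk (D.R.π a) (D'.R.π a) y)
  have hT : ({ R := D.R.sum D'.R, r := D.r + D'.r, e := e, he := hort, c := c } : Dta A).T a =
      ∑ i, ∑ j, (⟪(e i).fst, D.R.π a (e j).fst⟫_ℂ + ⟪(e i).snd, D'.R.π a (e j).snd⟫_ℂ) •
        (star (c i) * c j) :=
    Finset.sum_congr rfl fun i _ => Finset.sum_congr rfl fun j _ =>
      congrArg (fun z : ℂ => z • (star (c i) * c j)) (key (e i) (e j))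
  rw [hT, Fin.sum_univ_add]
  unfold Dta.T
  congr 1
  · refine Finset.sum_congr rfl fun i _ => ?_
    rw [Fin.sum_univ_add, add_eq_left.2]
    · refine Finset.sum_congr rfl fun j _ => ?_
      rw [he1, he1, hc1, hc1]
      show (⟪D.e i, D.R.π a (D.e j)⟫_ℂ + ⟪(0 : D'.R.H), D'.R.π a 0⟫_ℂ) • _ = _
      rw [inner_zero_left, add_zero]
    · refine Finset.sum_eq_zero fun j _ => ?_
      rw [he1, he2]
      show (⟪D.e i, D.R.π a 0⟫_ℂ + ⟪(0 : D'.R.H), D'.R.π a (D'.e j)⟫_ℂ) • _ = _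
      rw [inner_zero_left, map_zero, inner_zero_right, add_zero, zero_smul]
  · refine Finset.sum_congr rfl fun i _ => ?_
    rw [Fin.sum_univ_add, add_eq_right.2]
    · refine Finset.sum_congr rfl fun j _ => ?_
      rw [he2, he2, hc2, hc2]
      show (⟪(0 : D.R.H), D.R.π a 0⟫_ℂ + ⟪D'.e i, D'.R.π a (D'.e j)⟫_ℂ) • _ = _
      rw [inner_zero_left, zero_add]
    · refine Finset.sum_eq_zero fun j _ => ?_
      rw [he1, he2]
      show (⟪(0 : D.R.H), D.R.π a (D.e j)⟫_ℂ + ⟪D'.e i, D'.R.π a 0⟫_ℂ) • _ = _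
      rw [inner_zero_left, map_zero, inner_zero_right, add_zero, zero_smul]

/-- TARGET 2 -/
theorem Dta_smul (D : Dta A) (t : ℝ) (ht : 0 ≤ t) : ∃ D' : Dta A, ∀ a, D'.T a = (t : ℂ) • D.T a := by
  refine ⟨{ R := D.R, r := D.r, e := D.e, he := D.he, c := fun i => ((Real.sqrt t : ℝ) : ℂ) • D.c i },
    fun a => ?_⟩
  unfold Dta.T
  simp only
  rw [Finset.smul_sum]
  refine Finset.sum_congr rfl fun i _ => ?_
  rw [Finset.smul_sum]
  refine Finset.sum_congr rfl fun j _ => ?_
  have hs : ((Real.sqrt t : ℝ) : ℂ) * ((Real.sqrt t : ℝ) : ℂ) = (t : ℂ) := by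
    rw [← Complex.ofReal_mul, Real.mul_self_sqrt ht]
  rw [star_smul, smul_mul_assoc, mul_smul_comm, smul_smul]
  have h2 : star ((Real.sqrt t : ℝ) : ℂ) = ((Real.sqrt t : ℝ) : ℂ) := Complex.conj_ofReal _
  rw [h2, smul_smul, smul_smul, ← hs]
  congr 1
  ring

/-- TARGET 3 -/
theorem approx_Dta (D0 : Dta A) (m : ℕ) (a : Fin m → A)
    (hadd : ∀ D D' : Dta A, ∃ D'' : Dta A, ∀ a, D''.T a = D.T a + D'.T a)
    (hsmul : ∀ (D : Dta A) (t : ℝ), 0 ≤ t → ∃ D' : Dta A, ∀ a, D'.T a = (t : ℂ) • D.T a)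
    (hsep : ∀ f : Fin m → (A →L[ℂ] ℂ), (∀ D : Dta A, 0 ≤ (∑ l, f l (D.T (a l))).re) → 0 ≤ (∑ l, f l (a l)).re)
    (ε : ℝ) (hε : 0 < ε) : ∃ D : Dta A, ∀ l, ‖D.T (a l) - a l‖ < ε := by
  let K : Set (Fin m → A) := {k | ∃ D : Dta A, ∀ l, k l = D.T (a l)}
  have hconv : Convex ℝ K := by
    rintro x ⟨D, hD⟩ y ⟨D', hD'⟩ s t hs ht _
    obtain ⟨D1, h1⟩ := hsmul D s hs
    obtain ⟨D2, h2⟩ := hsmul D' t ht
    obtain ⟨D3, h3⟩ := hadd D1 D2
    refine ⟨D3, fun l => ?_⟩
    rw [h3, h1, h2, ← hD, ← hD']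
    rfl
  have hscale : ∀ x ∈ K, ∀ t : ℝ, 0 ≤ t → t • x ∈ K := by
    rintro x ⟨D, hD⟩ t ht
    obtain ⟨D1, h1⟩ := hsmul D t ht
    refine ⟨D1, fun l => ?_⟩
    rw [h1, ← hD]
    rfl
  have hmem : a ∈ closure K := by
    by_contra hcon
    obtain ⟨F, u, hu1, hu2⟩ := RCLike.geometric_hahn_banach_point_closed (𝕜 := ℂ) hconv.closure
      isClosed_closure hcon
    have hK0 : (fun l => D0.T (a l)) ∈ K := ⟨D0, fun l => rfl⟩
    have h0 : (0 : Fin m → A) ∈ K := by
      have := hscale _ hK0 0 le_rfl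
      rwa [zero_smul] at this
    have hu0 : u < 0 := by
      have := hu2 0 (subset_closure h0)
      simpa using this
    have hnn : ∀ x ∈ K, 0 ≤ (F x).re := by
      intro x hx
      by_contra hneg
      push Not at hneg
      have ht : 0 ≤ u / (F x).re := (div_pos_of_neg_of_neg hu0 hneg).le
      have := hu2 _ (subset_closure (hscale x hx _ ht))
      have h5 : F ((u / (F x).re) • x) = ((u / (F x).re : ℝ) : ℂ) * F x := by
        have : ((u / (F x).re) • x) = (((u / (F x).re : ℝ) : ℂ)) • x := by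
          funext l
          rfl
        rw [this, map_smul, smul_eq_mul]
      rw [h5] at this
      have h6 : RCLike.re (((u / (F x).re : ℝ) : ℂ) * F x) = u / (F x).re * (F x).re := by
        show (((u / (F x).re : ℝ) : ℂ) * F x).re = _
        rw [Complex.re_ofReal_mul]
      rw [h6, div_mul_cancel₀ _ hneg.ne] at this
      exact lt_irrefl _ this
    have hsum : ∀ x : Fin m → A, ∑ l, (F.comp (ContinuousLinearMap.single ℂ (fun _ : Fin m => A) l)) (x l) =
        F x := by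
      intro x
      simp only [ContinuousLinearMap.comp_apply]
      rw [← map_sum]
      congr 1
      exact Finset.univ_sum_single x
    have hfin := hsep (fun l => F.comp (ContinuousLinearMap.single ℂ (fun _ : Fin m => A) l)) (by
      intro D
      rw [hsum (fun l => D.T (a l))]
      exact hnn _ ⟨D, fun l => rfl⟩)
    rw [hsum a] at hfin
    have hu1' : (F a).re < u := hu1
    linarith
  obtain ⟨b, ⟨D, hD⟩, hb⟩ := Metric.mem_closure_iff.1 hmem ε hε
  refine ⟨D, fun l => ?_⟩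
  rw [← hD, ← dist_eq_norm, dist_comm]
  exact lt_of_le_of_lt (dist_le_pi_dist a b l) hb

end Pool.Agent.Helper234.Sub.SF
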