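import Pool.Agent.Helper234.Sub.S2

set_option autoImplicit false
open scoped ComplexOrder InnerProductSpace TensorProduct

namespace Pool.Agent.Helper234.Sub.SG

open Pool.Agent.Helper234.Sub



variable {A : Type} [CStarAlgebra A]

lemma pt_repr {H G : Type} [NormedAddCommGroup H] [InnerProductSpace ℂ H]
    [NormedAddCommGroup G] [InnerProductSpace ℂ G] (v : H ⊗[ℂ] G) :
    ∃ (r : ℕ) (e : Fin r → H) (g : Fin r → G), Orthonormal ℂ e ∧ v = ∑ i, e i ⊗ₜ[ℂ] g i := by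
  classical
  obtain ⟨S, hS⟩ := TensorProduct.exists_finset v
  let V : Submodule ℂ H := Submodule.span ℂ ((S.image Prod.fst : Finset H) : Set H)
  have : FiniteDimensional ℂ V := FiniteDimensional.span_finset ℂ (S.image Prod.fst)
  let B := stdOrthonormalBasis ℂ V
  refine ⟨Module.finrank ℂ V, fun i => (B i : H),
    fun i => ∑ p ∈ S, ⟪(B i : H), p.1⟫_ℂ • p.2, ?_, ?_⟩
  · have h := B.orthonormal
    exact h.comp_linearIsometry V.subtypeₗᵢ
  · have key : ∀ p ∈ S, p.1 = ∑ i, ⟪(B i : H), p.1⟫_ℂ • (B i : H) := by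
      intro p hp
      have hpV : p.1 ∈ V := Submodule.subset_span (by
        rw [Finset.coe_image]
        exact ⟨p, hp, rfl⟩)
      have h := B.sum_repr' ⟨p.1, hpV⟩
      have h2 := congrArg (fun x : V => (x : H)) h
      simp only [Submodule.coe_sum, Submodule.coe_smul, Submodule.coe_inner] at h2
      exact h2.symm
    rw [hS]
    calc ∑ p ∈ S, p.1 ⊗ₜ[ℂ] p.2 = ∑ p ∈ S, ∑ i, (B i : H) ⊗ₜ[ℂ] (⟪(B i : H), p.1⟫_ℂ • p.2) := by
          refine Finset.sum_congr rfl fun p hp => ?_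
          conv_lhs => rw [key p hp]
          rw [TensorProduct.sum_tmul]
          refine Finset.sum_congr rfl fun i _ => ?_
          rw [TensorProduct.smul_tmul]
      _ = _ := by
          rw [Finset.sum_comm]
          refine Finset.sum_congr rfl fun i _ => ?_
          rw [TensorProduct.tmul_sum]

lemma pt_expand (R : Rep A) (m : ℕ) (b : Fin m → Cm R.π) (a : Fin m → A) (R' : Rep A) (r : ℕ)
    (e : Fin r → R'.H) (g : Fin r → R.H) :
    ⟪∑ i, e i ⊗ₜ[ℂ] g i, th R.π R' (∑ l, a l ⊗ₜ b l) (∑ i, e i ⊗ₜ[ℂ] g i)⟫_ℂ =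
      ∑ l, ∑ i, ∑ j, ⟪e i, R'.π (a l) (e j)⟫_ℂ * ⟪g i, (b l).1 (g j)⟫_ℂ := by
  rw [map_sum (th R.π R'), LinearMap.sum_apply, inner_sum]
  refine Finset.sum_congr rfl fun l _ => ?_
  rw [th_tmul, map_sum, sum_inner]
  refine Finset.sum_congr rfl fun i _ => ?_
  rw [inner_sum]
  refine Finset.sum_congr rfl fun j _ => ?_
  rw [TensorProduct.map_tmul, TensorProduct.inner_tmul]
  rfl

/-- TARGET -/
theorem pos_transfer (R : Rep A) (Ω : R.H) (m : ℕ) (f : Fin m → (A →L[ℂ] ℂ)) (b : Fin m → Cm R.π)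
    (hdense : Dense (Set.range fun x => R.π x Ω))
    (hf : ∀ l x y, f l (star x * y) = ⟪R.π x Ω, (b l).1 (R.π y Ω)⟫_ℂ) (a : Fin m → A)
    (hD : ∀ D : Dta A, 0 ≤ (∑ l, f l (D.T (a l))).re) (R' : Rep A) (v : R'.H ⊗[ℂ] R.H) :
    0 ≤ (⟪v, th R.π R' (∑ l, a l ⊗ₜ b l) v⟫_ℂ).re := by
  classical
  obtain ⟨r, e, g, he, rfl⟩ := pt_repr v
  rw [pt_expand]
  have hcont : Continuous (fun g : Fin r → R.H =>
      (∑ l, ∑ i, ∑ j, ⟪e i, R'.π (a l) (e j)⟫_ℂ * ⟪g i, (b l).1 (g j)⟫_ℂ).re) := by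
    refine Complex.continuous_re.comp ?_
    refine continuous_finsetSum _ fun l _ => continuous_finsetSum _ fun i _ =>
      continuous_finsetSum _ fun j _ => ?_
    refine continuous_const.mul ?_
    exact (continuous_apply i).inner ((b l).1.continuous.comp (continuous_apply j))
  have hclosed : IsClosed {g : Fin r → R.H |
      0 ≤ (∑ l, ∑ i, ∑ j, ⟪e i, R'.π (a l) (e j)⟫_ℂ * ⟪g i, (b l).1 (g j)⟫_ℂ).re} :=
    isClosed_le continuous_const hcont
  have hd : Dense (Set.pi Set.univ fun _ : Fin r => Set.range fun x => R.π x Ω) :=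
    dense_pi _ fun _ _ => hdense
  have hsub : (Set.pi Set.univ fun _ : Fin r => Set.range fun x => R.π x Ω) ⊆ {g : Fin r → R.H |
      0 ≤ (∑ l, ∑ i, ∑ j, ⟪e i, R'.π (a l) (e j)⟫_ℂ * ⟪g i, (b l).1 (g j)⟫_ℂ).re} := by
    intro g hg
    have hg' : ∀ i, ∃ x, R.π x Ω = g i := fun i => hg i (Set.mem_univ i)
    choose c hc using hg'
    have h := hD ⟨R', r, e, he, c⟩
    have e1 : ∑ l, ∑ i, ∑ j, ⟪e i, R'.π (a l) (e j)⟫_ℂ * ⟪g i, (b l).1 (g j)⟫_ℂ =
        ∑ l, f l (Dta.T ⟨R', r, e, he, c⟩ (a l)) := by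
      refine Finset.sum_congr rfl fun l _ => ?_
      unfold Dta.T
      rw [map_sum]
      refine Finset.sum_congr rfl fun i _ => ?_
      rw [map_sum]
      refine Finset.sum_congr rfl fun j _ => ?_
      rw [map_smul, hf, hc, hc, smul_eq_mul]
    change 0 ≤ (∑ l, ∑ i, ∑ j, ⟪e i, R'.π (a l) (e j)⟫_ℂ * ⟪g i, (b l).1 (g j)⟫_ℂ).re
    rw [e1]
    exact h
  have := closure_minimal hsub hclosed (hd.closure_eq ▸ Set.mem_univ g)
  exact this

end Pool.Agent.Helper234.Sub.SG
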