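import Pool.Agent.Helper234.Sub.S2

set_option autoImplicit false
open scoped ComplexOrder InnerProductSpace TensorProduct

namespace Pool.Agent.Helper234.Sub.SH

open Pool.Agent.Helper234.Sub



variable {A : Type} [CStarAlgebra A]


section Aux

open ContinuousLinearMap

variable {B : Type} [CStarAlgebra B]

lemma sum_star_mul {C : Type} [CStarAlgebra C] {ι : Type} [Fintype ι] (Z : ι → C) :
    ∃ z : C, ∑ m, star (Z m) * Z m = star z * z := by
  let _ : PartialOrder C := CStarAlgebra.spectralOrder C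
  have _ : StarOrderedRing C := CStarAlgebra.spectralOrderedRing C
  have hnn : 0 ≤ ∑ m, star (Z m) * Z m := Finset.sum_nonneg fun m _ => star_mul_self_nonneg _
  exact CStarAlgebra.nonneg_iff_eq_star_mul_self.1 hnn

/-- sums of `w* w` are `z* z` -/
lemma pos_mat {ι : Type} [Fintype ι] {n : ℕ} (w : ι → Fin n → B) :
    ∃ z : Matrix (Fin n) (Fin n) B,
      ∀ i j, ∑ m, star (w m i) * w m j = (z.conjTranspose * z) i j := by
  classical
  rcases Nat.eq_zero_or_pos n with rfl | hn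
  · exact ⟨0, fun i => i.elim0⟩
  let _ : PartialOrder B := CStarAlgebra.spectralOrder B
  have _ : StarOrderedRing B := CStarAlgebra.spectralOrderedRing B
  let i0 : Fin n := ⟨0, hn⟩
  let Z : ι → CStarMatrix (Fin n) (Fin n) B :=
    fun m => CStarMatrix.ofMatrix (fun p j => if p = i0 then w m j else 0)
  obtain ⟨z, hz⟩ := sum_star_mul Z
  refine ⟨CStarMatrix.ofMatrix.symm z, fun i j => ?_⟩
  have h1 : (∑ m, star (Z m) * Z m) i j = (star z * z) i j := by rw [hz]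
  have h2 : (star z * z) i j =
      ((CStarMatrix.ofMatrix.symm z).conjTranspose * (CStarMatrix.ofMatrix.symm z)) i j := rfl
  rw [← h2, ← h1]
  have h3 : (∑ m, star (Z m) * Z m) i j = ∑ m, (star (Z m) * Z m) i j := by
    have := Matrix.sum_apply (m := Fin n) (n := Fin n) i j Finset.univ
      (fun m => (star (Z m) * Z m : CStarMatrix (Fin n) (Fin n) B))
    exact this
  rw [h3]
  refine Finset.sum_congr rfl fun m _ => ?_
  have hZ : ∀ p j, Z m p j = if p = i0 then w m j else 0 := fun p j => rfl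
  rw [CStarMatrix.mul_apply]
  simp_rw [CStarMatrix.star_apply, hZ]
  rw [Finset.sum_eq_single i0]
  · simp
  · intro p _ hp
    simp [hp]
  · intro h
    exact absurd (Finset.mem_univ _) h

/-- Cauchy–Schwarz in a Hilbert module -/
lemma cs_norm {ι : Type} [Fintype ι] (a b : ι → B) :
    ‖∑ i, star (a i) * b i‖ ^ 2 ≤ ‖∑ i, star (a i) * a i‖ * ‖∑ i, star (b i) * b i‖ := by
  let _ : PartialOrder B := CStarAlgebra.spectralOrder B
  have _ : StarOrderedRing B := CStarAlgebra.spectralOrderedRing B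
  let x : WithCStarModule B (ι → B) := (WithCStarModule.equiv B (ι → B)).symm (fun i => star (b i))
  let y : WithCStarModule B (ι → B) := (WithCStarModule.equiv B (ι → B)).symm (fun i => star (a i))
  have h := CStarModule.norm_inner_le (A := B) (WithCStarModule B (ι → B)) (x := x) (y := y)
  have h1 : inner B x y = ∑ i, star (a i) * b i := by
    rw [WithCStarModule.pi_inner]
    refine Finset.sum_congr rfl fun i _ => ?_
    rw [WithCStarModule.inner_def]
    simp [x, y]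
  have h2 : ‖x‖ ^ 2 = ‖∑ i, star (b i) * b i‖ := by
    rw [WithCStarModule.pi_norm_sq]
    congr 1
    refine Finset.sum_congr rfl fun i _ => ?_
    rw [WithCStarModule.inner_def]
    simp [x]
  have h3 : ‖y‖ ^ 2 = ‖∑ i, star (a i) * a i‖ := by
    rw [WithCStarModule.pi_norm_sq]
    congr 1
    refine Finset.sum_congr rfl fun i _ => ?_
    rw [WithCStarModule.inner_def]
    simp [y]
  rw [← h1, ← h2, ← h3]
  calc ‖inner B x y‖ ^ 2 ≤ (‖x‖ * ‖y‖) ^ 2 := by
        exact pow_le_pow_left₀ (norm_nonneg _) h 2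
    _ = _ := by ring

lemma norm_one_le : ‖(1 : B)‖ ≤ 1 := by
  rcases subsingleton_or_nontrivial B with h | h
  · have : (1 : B) = 0 := Subsingleton.elim _ _
    rw [this, norm_zero]
    exact zero_le_one
  · rw [CStarRing.norm_one]

variable {k : ℕ}

/-- the standard basis -/
noncomputable abbrev bs (k : ℕ) : OrthonormalBasis (Fin k) ℂ (EuclideanSpace ℂ (Fin k)) :=
  EuclideanSpace.basisFun (Fin k) ℂ

/-- the second factor before normalisation -/
noncomputable def psi0 (c : Fin k → B) :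
    (EuclideanSpace ℂ (Fin k) →L[ℂ] EuclideanSpace ℂ (Fin k)) →ₗ[ℂ] B where
  toFun x := ∑ i, ∑ j, ⟪bs k i, x (bs k j)⟫_ℂ • (star (c i) * c j)
  map_add' x y := by
    simp only [add_apply, inner_add_right, add_smul, Finset.sum_add_distrib]
  map_smul' r x := by
    simp only [smul_apply, inner_smul_right, RingHom.id_apply,
      Finset.smul_sum, smul_smul]

lemma psi0_apply (c : Fin k → B) (x : EuclideanSpace ℂ (Fin k) →L[ℂ] EuclideanSpace ℂ (Fin k)) :
    psi0 c x = ∑ i, ∑ j, ⟪bs k i, x (bs k j)⟫_ℂ • (star (c i) * c j) := rfl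

lemma psi0_star_mul (c : Fin k → B)
    (x y : EuclideanSpace ℂ (Fin k) →L[ℂ] EuclideanSpace ℂ (Fin k)) :
    psi0 c (star x * y) = ∑ p, star (∑ l, ⟪bs k p, x (bs k l)⟫_ℂ • c l) *
      (∑ l, ⟪bs k p, y (bs k l)⟫_ℂ • c l) := by
  rw [psi0_apply]
  have h1 : ∀ i j, ⟪bs k i, (star x * y) (bs k j)⟫_ℂ =
      ∑ p, (starRingEnd ℂ) ⟪bs k p, x (bs k i)⟫_ℂ * ⟪bs k p, y (bs k j)⟫_ℂ := by
    intro i j
    have e : (star x * y) (bs k j) = (ContinuousLinearMap.adjoint x) (y (bs k j)) := rfl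
    rw [e, ContinuousLinearMap.adjoint_inner_right, ← (bs k).sum_inner_mul_inner]
    refine Finset.sum_congr rfl fun p _ => ?_
    rw [inner_conj_symm]
  have h2 : ∀ p, star (∑ l, ⟪bs k p, x (bs k l)⟫_ℂ • c l) * (∑ l, ⟪bs k p, y (bs k l)⟫_ℂ • c l) =
      ∑ i, ∑ j, ((starRingEnd ℂ) ⟪bs k p, x (bs k i)⟫_ℂ * ⟪bs k p, y (bs k j)⟫_ℂ) •
        (star (c i) * c j) := by
    intro p
    rw [star_sum, Finset.sum_mul]
    refine Finset.sum_congr rfl fun i _ => ?_
    rw [Finset.mul_sum]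
    refine Finset.sum_congr rfl fun j _ => ?_
    rw [star_smul, smul_mul_smul_comm]
    rfl
  simp_rw [h1, h2, Finset.sum_smul]
  calc ∑ i, ∑ j, ∑ p, ((starRingEnd ℂ) ⟪bs k p, x (bs k i)⟫_ℂ * ⟪bs k p, y (bs k j)⟫_ℂ) •
        (star (c i) * c j)
      = ∑ i, ∑ p, ∑ j, ((starRingEnd ℂ) ⟪bs k p, x (bs k i)⟫_ℂ * ⟪bs k p, y (bs k j)⟫_ℂ) •
        (star (c i) * c j) := Finset.sum_congr rfl fun i _ => Finset.sum_comm
    _ = _ := Finset.sum_comm

lemma psi0_one (c : Fin k → B) : psi0 c 1 = ∑ i, star (c i) * c i := by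
  rw [psi0_apply]
  refine Finset.sum_congr rfl fun i _ => ?_
  rw [Finset.sum_eq_single i]
  · have : ((1 : EuclideanSpace ℂ (Fin k) →L[ℂ] EuclideanSpace ℂ (Fin k)) (bs k i)) = bs k i := rfl
    rw [this, (orthonormal_iff_ite.1 (bs k).orthonormal i i), if_pos rfl, one_smul]
  · intro j _ hj
    have : ((1 : EuclideanSpace ℂ (Fin k) →L[ℂ] EuclideanSpace ℂ (Fin k)) (bs k j)) = bs k j := rfl
    rw [this, (orthonormal_iff_ite.1 (bs k).orthonormal i j), if_neg (Ne.symm hj), zero_smul]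
  · intro h
    exact absurd (Finset.mem_univ _) h

lemma psi0_norm (c : Fin k → B)
    (x : EuclideanSpace ℂ (Fin k) →L[ℂ] EuclideanSpace ℂ (Fin k)) :
    ‖psi0 c x‖ ≤ ‖x‖ * ‖∑ i, star (c i) * c i‖ := by
  let _ : PartialOrder B := CStarAlgebra.spectralOrder B
  have _ : StarOrderedRing B := CStarAlgebra.spectralOrderedRing B
  set S : B := ∑ i, star (c i) * c i with hS
  let d : Fin k → B := fun i => ∑ l, ⟪bs k i, x (bs k l)⟫_ℂ • c l
  have h1 : psi0 c x = ∑ i, star (c i) * d i := by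
    rw [psi0_apply]
    refine Finset.sum_congr rfl fun i _ => ?_
    rw [Finset.mul_sum]
    refine Finset.sum_congr rfl fun j _ => ?_
    rw [mul_smul_comm]
  have h2 : psi0 c (star x * x) = ∑ i, star (d i) * d i := psi0_star_mul c x x
  have hpos : ∀ h : EuclideanSpace ℂ (Fin k) →L[ℂ] EuclideanSpace ℂ (Fin k),
      0 ≤ psi0 c (star h * h) := by
    intro h
    rw [psi0_star_mul]
    exact Finset.sum_nonneg fun m _ => star_mul_self_nonneg _
  have h3 : psi0 c (star x * x) ≤ (((‖x‖ ^ 2 : ℝ) : ℂ)) • S := by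
    have hle := CStarAlgebra.star_mul_le_algebraMap_norm_sq (a := x)
    obtain ⟨h, hh⟩ := CStarAlgebra.nonneg_iff_eq_star_mul_self.1 (sub_nonneg.2 hle)
    have h4 := hpos h
    rw [← hh, map_sub, sub_nonneg] at h4
    refine h4.trans (le_of_eq ?_)
    rw [hS, ← psi0_one c, ← map_smul]
    congr 1
  have h5 : ‖psi0 c (star x * x)‖ ≤ ‖x‖ ^ 2 * ‖S‖ := by
    refine (CStarAlgebra.norm_le_norm_of_nonneg_of_le (hpos x) h3).trans ?_
    rw [norm_smul]
    simp
  have h6 := cs_norm c d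
  rw [← h1, ← h2] at h6
  have h7 : ‖psi0 c x‖ ^ 2 ≤ (‖x‖ * ‖S‖) ^ 2 := by
    refine h6.trans ?_
    calc ‖S‖ * ‖psi0 c (star x * x)‖ ≤ ‖S‖ * (‖x‖ ^ 2 * ‖S‖) :=
          mul_le_mul_of_nonneg_left h5 (norm_nonneg _)
      _ = _ := by ring
  exact (pow_le_pow_iff_left₀ (norm_nonneg _) (by positivity) two_ne_zero).1 h7

/-- the isometry of an orthonormal family -/
noncomputable def iso {H : Type} [NormedAddCommGroup H] [InnerProductSpace ℂ H]
    (e : Fin k → H) (he : Orthonormal ℂ e) : EuclideanSpace ℂ (Fin k) →ₗᵢ[ℂ] H :=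
  LinearMap.isometryOfOrthonormal ((bs k).toBasis.constr ℂ e) (v := (bs k).toBasis)
    (by simpa using (bs k).orthonormal) (by
      have : (((bs k).toBasis.constr ℂ e) ∘ (bs k).toBasis) = e := by
        funext i
        simp [Module.Basis.constr_basis]
      rw [this]
      exact he)

lemma iso_bs {H : Type} [NormedAddCommGroup H] [InnerProductSpace ℂ H]
    (e : Fin k → H) (he : Orthonormal ℂ e) (i : Fin k) : iso e he (bs k i) = e i := by
  have := (bs k).toBasis.constr_basis ℂ e i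
  rw [OrthonormalBasis.coe_toBasis] at this
  exact this

end Aux


section Aux2

variable {A : Type} [CStarAlgebra A]

/-- the first factor -/
noncomputable def phi {k : ℕ} (R : Rep A) (J : EuclideanSpace ℂ (Fin k) →L[ℂ] R.H) :
    A →ₗ[ℂ] (EuclideanSpace ℂ (Fin k) →L[ℂ] EuclideanSpace ℂ (Fin k)) where
  toFun a := (ContinuousLinearMap.adjoint J) ∘L (R.π a) ∘L J
  map_add' x y := by
    rw [map_add]
    ext v i
    simp
  map_smul' r x := by
    rw [map_smul]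
    ext v i
    simp

lemma phi_inner {k : ℕ} (R : Rep A) (J : EuclideanSpace ℂ (Fin k) →L[ℂ] R.H) (a : A)
    (x y : EuclideanSpace ℂ (Fin k)) :
    ⟪x, phi R J a y⟫_ℂ = ⟪J x, R.π a (J y)⟫_ℂ := by
  show ⟪x, (ContinuousLinearMap.adjoint J) (R.π a (J y))⟫_ℂ = _
  rw [ContinuousLinearMap.adjoint_inner_right]

lemma phi_norm {k : ℕ} (R : Rep A) (J : EuclideanSpace ℂ (Fin k) →L[ℂ] R.H) (hJ : ‖J‖ ≤ 1) (a : A) :
    ‖phi R J a‖ ≤ ‖a‖ := by
  have h1 : ‖R.π a‖ ≤ ‖a‖ := NonUnitalStarAlgHom.norm_apply_le R.π a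
  have h2 : ‖ContinuousLinearMap.adjoint J‖ = ‖J‖ := by
    exact LinearIsometryEquiv.norm_map _ _
  calc ‖phi R J a‖ ≤ ‖ContinuousLinearMap.adjoint J‖ * ‖(R.π a) ∘L J‖ :=
        ContinuousLinearMap.opNorm_comp_le _ _
    _ ≤ ‖ContinuousLinearMap.adjoint J‖ * (‖R.π a‖ * ‖J‖) :=
        mul_le_mul_of_nonneg_left (ContinuousLinearMap.opNorm_comp_le _ _) (norm_nonneg _)
    _ ≤ 1 * (‖a‖ * 1) := by
        rw [h2]
        exact mul_le_mul hJ (mul_le_mul h1 hJ (norm_nonneg _) (norm_nonneg _)) (by positivity)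
          zero_le_one
    _ = ‖a‖ := by ring

lemma phi_cp {k : ℕ} (R : Rep A) (J : EuclideanSpace ℂ (Fin k) →L[ℂ] R.H) (n : ℕ)
    (y : Matrix (Fin n) (Fin n) A) :
    ∃ z : Matrix (Fin n) (Fin n) (EuclideanSpace ℂ (Fin k) →L[ℂ] EuclideanSpace ℂ (Fin k)),
      (y.conjTranspose * y).map (⇑(phi R J)) = z.conjTranspose * z := by
  classical
  rcases Nat.eq_zero_or_pos k with hk | hk
  · subst hk
    refine ⟨0, ?_⟩
    ext i j v l
    exact l.elim0
  let u : EuclideanSpace ℂ (Fin k) := bs k ⟨0, hk⟩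
  have hu : ⟪u, u⟫_ℂ = 1 := by
    rw [(orthonormal_iff_ite.1 (bs k).orthonormal _ _), if_pos rfl]
  let v : (Fin n × Fin n) × Fin k → R.H := fun q => R.π (y q.1.1 q.1.2) (J (bs k q.2))
  let F : Submodule ℂ R.H := Submodule.span ℂ (Set.range v)
  have hF : FiniteDimensional ℂ F := FiniteDimensional.span_of_finite ℂ (Set.finite_range v)
  have hmem : ∀ (m i : Fin n) (x : EuclideanSpace ℂ (Fin k)), R.π (y m i) (J x) ∈ F := by
    intro m i x
    rw [← (bs k).sum_repr x, map_sum, map_sum]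
    refine Submodule.sum_mem _ fun l _ => ?_
    rw [map_smul, map_smul]
    exact Submodule.smul_mem _ _ (Submodule.subset_span ⟨((m, i), l), rfl⟩)
  let f := stdOrthonormalBasis ℂ F
  let θ : (Fin n × Fin (Module.finrank ℂ F)) → Fin n →
      (EuclideanSpace ℂ (Fin k) →L[ℂ] EuclideanSpace ℂ (Fin k)) := fun q i =>
    ContinuousLinearMap.smulRight
      ((innerSL ℂ ((f q.2 : F) : R.H)).comp ((R.π (y q.1 i)).comp J)) u
  have hθ : ∀ q i x, θ q i x = ⟪((f q.2 : F) : R.H), R.π (y q.1 i) (J x)⟫_ℂ • u :=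
    fun q i x => rfl
  obtain ⟨z, hz⟩ := pos_mat θ
  refine ⟨z, ?_⟩
  ext1 i j
  rw [← hz i j, Matrix.map_apply]
  refine ContinuousLinearMap.ext fun w => ?_
  refine ext_inner_left ℂ fun x => ?_
  rw [phi_inner, Matrix.mul_apply, map_sum]
  have e1 : (∑ m, R.π (y.conjTranspose i m * y m j)) (J w) =
      ∑ m, R.π (y.conjTranspose i m * y m j) (J w) := ContinuousLinearMap.sum_apply _ _ _
  have e2 : (∑ q, star (θ q i) * θ q j) w = ∑ q, (star (θ q i) * θ q j) w :=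
    ContinuousLinearMap.sum_apply _ _ _
  rw [e1, e2, inner_sum, inner_sum, Fintype.sum_prod_type]
  refine Finset.sum_congr rfl fun m _ => ?_
  have e3 : ⟪J x, R.π (y.conjTranspose i m * y m j) (J w)⟫_ℂ =
      ⟪R.π (y m i) (J x), R.π (y m j) (J w)⟫_ℂ := by
    rw [Matrix.conjTranspose_apply, map_mul, map_star]
    show ⟪J x, (ContinuousLinearMap.adjoint (R.π (y m i))) (R.π (y m j) (J w))⟫_ℂ = _
    rw [ContinuousLinearMap.adjoint_inner_right]
  rw [e3]
  have e4 := f.sum_inner_mul_inner ⟨_, hmem m i x⟩ ⟨_, hmem m j w⟩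
  have e5 : ⟪(⟨_, hmem m i x⟩ : F), (⟨_, hmem m j w⟩ : F)⟫_ℂ =
      ⟪R.π (y m i) (J x), R.π (y m j) (J w)⟫_ℂ := rfl
  rw [← e5, ← e4]
  refine Finset.sum_congr rfl fun p _ => ?_
  have e6 : ⟪x, (star (θ (m, p) i) * θ (m, p) j) w⟫_ℂ = ⟪θ (m, p) i x, θ (m, p) j w⟫_ℂ := by
    show ⟪x, (ContinuousLinearMap.adjoint (θ (m, p) i)) (θ (m, p) j w)⟫_ℂ = _
    rw [ContinuousLinearMap.adjoint_inner_right]
  rw [e6, hθ, hθ, inner_smul_left, inner_smul_right, hu, mul_one, inner_conj_symm]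
  rfl

end Aux2

/-- TARGET -/
theorem finish (D : Dta A) (δ : ℝ) (hδ : 0 ≤ δ) (h1 : ‖D.T 1 - 1‖ ≤ δ) :
    ∃ (k : ℕ)
      (φ : A →ₗ[ℂ] (EuclideanSpace ℂ (Fin k) →L[ℂ] EuclideanSpace ℂ (Fin k)))
      (ψ : (EuclideanSpace ℂ (Fin k) →L[ℂ] EuclideanSpace ℂ (Fin k)) →ₗ[ℂ] A),
      (∀ (n : ℕ) (y : Matrix (Fin n) (Fin n) A),
        ∃ z : Matrix (Fin n) (Fin n)
            (EuclideanSpace ℂ (Fin k) →L[ℂ] EuclideanSpace ℂ (Fin k)),
          (y.conjTranspose * y).map (⇑φ) = z.conjTranspose * z) ∧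
      (∀ (n : ℕ) (y : Matrix (Fin n) (Fin n)
            (EuclideanSpace ℂ (Fin k) →L[ℂ] EuclideanSpace ℂ (Fin k))),
        ∃ z : Matrix (Fin n) (Fin n) A,
          (y.conjTranspose * y).map (⇑ψ) = z.conjTranspose * z) ∧
      (∀ a : A, ‖φ a‖ ≤ ‖a‖) ∧
      (∀ b : EuclideanSpace ℂ (Fin k) →L[ℂ] EuclideanSpace ℂ (Fin k), ‖ψ b‖ ≤ ‖b‖) ∧
      ∀ a, ‖ψ (φ a) - a‖ ≤ ‖D.T a - a‖ + δ * ‖a‖ := by
  have hd : (0 : ℝ) < 1 + δ := by linarith
  have hS : ∑ i, star (D.c i) * D.c i = D.T 1 := by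
    rw [Dta.T]
    refine Finset.sum_congr rfl fun i _ => ?_
    rw [Finset.sum_eq_single i]
    · have : D.R.π 1 (D.e i) = D.e i := by rw [map_one]; rfl
      rw [this, orthonormal_iff_ite.1 D.he i i, if_pos rfl, one_smul]
    · intro j _ hj
      have : D.R.π 1 (D.e j) = D.e j := by rw [map_one]; rfl
      rw [this, orthonormal_iff_ite.1 D.he i j, if_neg (Ne.symm hj), zero_smul]
    · intro h
      exact absurd (Finset.mem_univ _) h
  have hSn : ‖∑ i, star (D.c i) * D.c i‖ ≤ 1 + δ := by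
    rw [hS]
    calc ‖D.T 1‖ = ‖(D.T 1 - 1) + 1‖ := by rw [sub_add_cancel]
      _ ≤ ‖D.T 1 - 1‖ + ‖(1 : A)‖ := norm_add_le _ _
      _ ≤ 1 + δ := by linarith [norm_one_le (B := A)]
  let J : EuclideanSpace ℂ (Fin D.r) →L[ℂ] D.R.H := (iso D.e D.he).toContinuousLinearMap
  have hJ : ‖J‖ ≤ 1 := (iso D.e D.he).norm_toContinuousLinearMap_le
  have hJb : ∀ i, J (bs D.r i) = D.e i := fun i => iso_bs D.e D.he i
  have hφ : ∀ a, psi0 D.c (phi D.R J a) = D.T a := by
    intro a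
    rw [psi0_apply, Dta.T]
    refine Finset.sum_congr rfl fun i _ => Finset.sum_congr rfl fun j _ => ?_
    rw [phi_inner, hJb, hJb]
  refine ⟨D.r, phi D.R J, (((1 + δ)⁻¹ : ℝ) : ℂ) • psi0 D.c, phi_cp D.R J, ?_,
    phi_norm D.R J hJ, ?_, ?_⟩
  · intro n y
    let s : ℝ := (Real.sqrt (1 + δ))⁻¹
    have hs : s * s = (1 + δ)⁻¹ := by
      simp only [s]
      rw [← mul_inv, Real.mul_self_sqrt hd.le]
    let w : (Fin n × Fin D.r) → Fin n → A := fun q i =>
      (s : ℂ) • ∑ l, ⟪bs D.r q.2, y q.1 i (bs D.r l)⟫_ℂ • D.c l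
    obtain ⟨z, hz⟩ := pos_mat w
    refine ⟨z, ?_⟩
    ext1 i j
    rw [← hz i j, Matrix.map_apply, Matrix.mul_apply, map_sum, Fintype.sum_prod_type]
    refine Finset.sum_congr rfl fun m _ => ?_
    rw [Matrix.conjTranspose_apply, LinearMap.smul_apply, psi0_star_mul, Finset.smul_sum]
    refine Finset.sum_congr rfl fun p _ => ?_
    simp only [w]
    rw [star_smul, smul_mul_smul_comm]
    congr 1
    rw [← hs]
    simp
  · intro b
    rw [LinearMap.smul_apply, norm_smul]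
    have h2 : ‖(((1 + δ)⁻¹ : ℝ) : ℂ)‖ = (1 + δ)⁻¹ := by
      rw [Complex.norm_real, Real.norm_of_nonneg (inv_nonneg.2 hd.le)]
    rw [h2]
    have h3 := psi0_norm D.c b
    calc (1 + δ)⁻¹ * ‖psi0 D.c b‖ ≤ (1 + δ)⁻¹ * (‖b‖ * (1 + δ)) := by
          refine mul_le_mul_of_nonneg_left (h3.trans ?_) (inv_nonneg.2 hd.le)
          exact mul_le_mul_of_nonneg_left hSn (norm_nonneg _)
      _ = ‖b‖ := by field_simp
  · intro a
    rw [LinearMap.smul_apply, hφ]
    have h2 : (((1 + δ)⁻¹ : ℝ) : ℂ) • D.T a - a =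
        (((1 + δ)⁻¹ : ℝ) : ℂ) • (D.T a - a) - ((δ * (1 + δ)⁻¹ : ℝ) : ℂ) • a := by
      have h3 : (((1 + δ)⁻¹ : ℝ) : ℂ) + ((δ * (1 + δ)⁻¹ : ℝ) : ℂ) = 1 := by
        rw [← Complex.ofReal_add]
        have : (1 + δ)⁻¹ + δ * (1 + δ)⁻¹ = 1 := by field_simp
        rw [this, Complex.ofReal_one]
      rw [smul_sub, sub_sub, ← add_smul, h3, one_smul]
    rw [h2]
    refine (norm_sub_le _ _).trans ?_
    rw [norm_smul, norm_smul, Complex.norm_real, Complex.norm_real,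
      Real.norm_of_nonneg (inv_nonneg.2 hd.le), Real.norm_of_nonneg (by positivity)]
    have h4 : (1 + δ)⁻¹ ≤ 1 := inv_le_one_of_one_le₀ (by linarith)
    have h5 : δ * (1 + δ)⁻¹ ≤ δ := mul_le_of_le_one_right hδ h4
    exact add_le_add (mul_le_of_le_one_left (norm_nonneg _) h4)
      (mul_le_mul_of_nonneg_right h5 (norm_nonneg _))

end Pool.Agent.Helper234.Sub.SH
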