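import Pool.Agent.Helper234.Sub.SB
import Pool.Agent.Helper234.Sub.SC
import Pool.Agent.Helper234.Sub.SD
import Pool.Agent.Helper234.Sub.SE
import Pool.Agent.Helper234.Sub.SF
import Pool.Agent.Helper234.Sub.SG
import Pool.Agent.Helper234.Sub.SA
import Pool.Agent.Helper234.Sub.SH

set_option autoImplicit false
open scoped ComplexOrder InnerProductSpace TensorProduct

namespace Pool.Agent.Helper234.Sub

section targets

variable {A : Type} [CStarAlgebra A]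

theorem exists_vector_rep (f : A →L[ℂ] ℂ) :
    ∃ (R : Rep A) (η ζ : R.H), ‖η‖ ≤ 1 ∧ ‖ζ‖ ≤ ‖f‖ ∧ ∀ x, f x = ⟪ζ, R.π x η⟫_ℂ :=
  SA.exists_vector_rep f

variable {G : Type} [NormedAddCommGroup G] [InnerProductSpace ℂ G] [CompleteSpace G]
  (ρ : A →⋆ₐ[ℂ] (G →L[ℂ] G))

theorem mu_le (V : Submodule ℂ A) [FiniteDimensional ℂ V] (w : A ⊗[ℂ] Cm ρ) (hw : w ∈ FB ρ V) (C : ℝ)
    (hC : 0 ≤ C) (hth : ∀ (R : Rep A) (v : R.H ⊗[ℂ] G), ‖th ρ R w v‖ ≤ C * ‖v‖) :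
    ‖mu ρ w‖ ≤ Module.finrank ℂ V * C :=
  SC.mu_le ρ V exists_vector_rep (SB.auerbach V) w hw C hC hth

theorem growth (F : ℕ → Submodule ℂ A) (h0 : F 0 = Submodule.span ℂ {(1 : A)})
    (hmul : ∀ m n : ℕ, ∀ x ∈ F m, ∀ y ∈ F n, x * y ∈ F (m + n))
    (hfd : ∀ n : ℕ, FiniteDimensional ℂ (F n))
    (hgr : Filter.Tendsto (fun n : ℕ => ((Module.finrank ℂ (F n) : ℕ) : ℝ) ^ (1 / (n : ℝ)))
      Filter.atTop (nhds 1)) (k : ℕ) (y : A ⊗[ℂ] Cm ρ) (hy : y ∈ FB ρ (F k))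
    (hsa : IsSelfAdjoint (mu ρ y)) (L : ℝ) (hL : 0 ≤ L)
    (hbd : ∀ (n : ℕ) (R : Rep A) (v : R.H ⊗[ℂ] G), ‖th ρ R (y ^ n) v‖ ≤ L ^ n * ‖v‖) : ‖mu ρ y‖ ≤ L :=
  SC.growth ρ F hfd (fun V _ w hw C hC hth => mu_le ρ V w hw C hC hth)
    (fun k w hw n => SC.FB_pow ρ F h0 hmul k w hw n) hgr k y hy hsa L hL hbd

theorem pos_main (F : ℕ → Submodule ℂ A) (hmono : Monotone F) (h0 : F 0 = Submodule.span ℂ {(1 : A)})
    (hmul : ∀ m n : ℕ, ∀ x ∈ F m, ∀ y ∈ F n, x * y ∈ F (m + n))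
    (hstar : ∀ n : ℕ, ∀ x ∈ F n, star x ∈ F n)
    (hfd : ∀ n : ℕ, FiniteDimensional ℂ (F n))
    (hgr : Filter.Tendsto (fun n : ℕ => ((Module.finrank ℂ (F n) : ℕ) : ℝ) ^ (1 / (n : ℝ)))
      Filter.atTop (nhds 1)) (k m : ℕ) (a : Fin m → A) (ha : ∀ l, a l ∈ F k) (b : Fin m → Cm ρ)
    (hpos : ∀ (R : Rep A) (v : R.H ⊗[ℂ] G), 0 ≤ (⟪v, th ρ R (∑ l, a l ⊗ₜ b l) v⟫_ℂ).re) (v : G) :
    0 ≤ (⟪v, mu ρ (∑ l, a l ⊗ₜ b l) v⟫_ℂ).re :=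
  SD.pos_main ρ F hmono h0 hstar
    (fun k y hy hsa L hL hbd => growth ρ F h0 hmul hfd hgr k y hy hsa L hL hbd)
    (fun y L hL hs h0 h1 n v => SB.pow_bound y L hL hs h0 h1 n v)
    (fun x b v => SB.map_bound x b v) k m a ha b hpos v

theorem exists_commutant (m : ℕ) (f : Fin m → (A →L[ℂ] ℂ)) :
    ∃ (R : Rep A) (Ω : R.H) (b : Fin m → Cm R.π), Dense (Set.range fun x => R.π x Ω) ∧
      ∀ l x y, f l (star x * y) = ⟪R.π x Ω, (b l).1 (R.π y Ω)⟫_ℂ :=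
  SE.exists_commutant exists_vector_rep m f

theorem approx_Dta (D0 : Dta A) (m : ℕ) (a : Fin m → A)
    (hsep : ∀ f : Fin m → (A →L[ℂ] ℂ), (∀ D : Dta A, 0 ≤ (∑ l, f l (D.T (a l))).re) → 0 ≤ (∑ l, f l (a l)).re)
    (ε : ℝ) (hε : 0 < ε) : ∃ D : Dta A, ∀ l, ‖D.T (a l) - a l‖ < ε :=
  SF.approx_Dta D0 m a SF.Dta_add SF.Dta_smul hsep ε hε

theorem pos_transfer (R : Rep A) (Ω : R.H) (m : ℕ) (f : Fin m → (A →L[ℂ] ℂ)) (b : Fin m → Cm R.π)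
    (hdense : Dense (Set.range fun x => R.π x Ω))
    (hf : ∀ l x y, f l (star x * y) = ⟪R.π x Ω, (b l).1 (R.π y Ω)⟫_ℂ) (a : Fin m → A)
    (hD : ∀ D : Dta A, 0 ≤ (∑ l, f l (D.T (a l))).re) (R' : Rep A) (v : R'.H ⊗[ℂ] R.H) :
    0 ≤ (⟪v, th R.π R' (∑ l, a l ⊗ₜ b l) v⟫_ℂ).re :=
  SG.pos_transfer R Ω m f b hdense hf a hD R' v

theorem finish (D : Dta A) (δ : ℝ) (hδ : 0 ≤ δ) (h1 : ‖D.T 1 - 1‖ ≤ δ) :
    ∃ (k : ℕ)
      (φ : A →ₗ[ℂ] (EuclideanSpace ℂ (Fin k) →L[ℂ] EuclideanSpace ℂ (Fin k)))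
      (ψ : (EuclideanSpace ℂ (Fin k) →L[ℂ] EuclideanSpace ℂ (Fin k)) →ₗ[ℂ] A),
      (∀ (n : ℕ) (y : Matrix (Fin n) (Fin n) A),
        ∃ z : Matrix (Fin n) (Fin n)
            (EuclideanSpace ℂ (Fin k) →L[ℂ] EuclideanSpace ℂ (Fin k)),
          (y.conjTranspose * y).map (⇑φ) = z.conjTranspose * z) ∧
      (∀ (n : ℕ) (y : Matrix (Fin n) (Fin n)
            (EuclideanSpace ℂ (Fin k) →L[ℂ] EuclideanSpace ℂ (Fin k))),
        ∃ z : Matrix (Fin n) (Fin n) A,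
          (y.conjTranspose * y).map (⇑ψ) = z.conjTranspose * z) ∧
      (∀ a : A, ‖φ a‖ ≤ ‖a‖) ∧
      (∀ b : EuclideanSpace ℂ (Fin k) →L[ℂ] EuclideanSpace ℂ (Fin k), ‖ψ b‖ ≤ ‖b‖) ∧
      ∀ a, ‖ψ (φ a) - a‖ ≤ ‖D.T a - a‖ + δ * ‖a‖ :=
  SH.finish D δ hδ h1

end targets

/-- subexponential filtrations imply nuclearity -/
theorem main :
  ∀ (A : Type) [CStarAlgebra A] (F : ℕ → Submodule ℂ A),
    Monotone F →
    F 0 = Submodule.span ℂ {(1 : A)} →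
    (∀ m n : ℕ, ∀ x ∈ F m, ∀ y ∈ F n, x * y ∈ F (m + n)) →
    (∀ n : ℕ, ∀ x ∈ F n, star x ∈ F n) →
    Dense (⋃ n : ℕ, (F n : Set A)) →
    (∀ n : ℕ, FiniteDimensional ℂ (F n)) →
    Filter.Tendsto (fun n : ℕ => ((Module.finrank ℂ (F n) : ℕ) : ℝ) ^ (1 / (n : ℝ)))
      Filter.atTop (nhds 1) →
    ∀ (S : Finset A) (ε : ℝ), 0 < ε →
      ∃ (k : ℕ)
        (φ : A →ₗ[ℂ] (EuclideanSpace ℂ (Fin k) →L[ℂ] EuclideanSpace ℂ (Fin k)))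
        (ψ : (EuclideanSpace ℂ (Fin k) →L[ℂ] EuclideanSpace ℂ (Fin k)) →ₗ[ℂ] A),
        (∀ (n : ℕ) (y : Matrix (Fin n) (Fin n) A),
          ∃ z : Matrix (Fin n) (Fin n)
              (EuclideanSpace ℂ (Fin k) →L[ℂ] EuclideanSpace ℂ (Fin k)),
            (y.conjTranspose * y).map (⇑φ) = z.conjTranspose * z) ∧
        (∀ (n : ℕ) (y : Matrix (Fin n) (Fin n)
              (EuclideanSpace ℂ (Fin k) →L[ℂ] EuclideanSpace ℂ (Fin k))),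
          ∃ z : Matrix (Fin n) (Fin n) A,
            (y.conjTranspose * y).map (⇑ψ) = z.conjTranspose * z) ∧
        (∀ a : A, ‖φ a‖ ≤ ‖a‖) ∧
        (∀ b : EuclideanSpace ℂ (Fin k) →L[ℂ] EuclideanSpace ℂ (Fin k), ‖ψ b‖ ≤ ‖b‖) ∧
        ∀ a ∈ S, ‖ψ (φ a) - a‖ < ε := by
  intro A _ F hmono h0 hmul hstar hdense hfd hgr S ε hε
  classical
  -- approximate S
  obtain ⟨K, hK⟩ : ∃ K : ℝ, ∀ a ∈ S, ‖a‖ ≤ K := by
    refine ⟨∑ a ∈ S, ‖a‖, fun a ha => Finset.single_le_sum (f := fun a => ‖a‖) (fun _ _ => norm_nonneg _) ha⟩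
  have happ : ∀ a : A, ∃ a' : A, ‖a - a'‖ < min 1 (ε / 8) ∧ ∃ n, a' ∈ F n := by
    intro a
    have hpos : 0 < min 1 (ε / 8) := by positivity
    obtain ⟨a', ha', hd⟩ := hdense.exists_dist_lt a hpos
    rw [Set.mem_iUnion] at ha'
    obtain ⟨n, hn⟩ := ha'
    exact ⟨a', by rwa [← dist_eq_norm], n, hn⟩
  choose g hg1 g' hg2 using happ
  obtain ⟨k, hk⟩ : ∃ k, ∀ a ∈ S, g a ∈ F k := by
    refine ⟨∑ a ∈ S, g' a, fun a ha => ?_⟩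
    exact hmono (Finset.single_le_sum (f := g') (fun _ _ => Nat.zero_le _) ha) (hg2 a)
  -- the finite family
  let e := S.equivFin
  let m := S.card
  let av : Fin (m + 1) → A := Fin.cons 1 (fun i => g (e.symm i).1)
  have hav : ∀ l, av l ∈ F k := by
    intro l
    refine Fin.cases ?_ (fun i => ?_) l
    · show (1 : A) ∈ F k
      refine hmono (Nat.zero_le k) ?_
      rw [h0]
      exact Submodule.mem_span_singleton_self 1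
    · exact hk _ (e.symm i).2
  have hsep : ∀ f : Fin (m + 1) → (A →L[ℂ] ℂ),
      (∀ D : Dta A, 0 ≤ (∑ l, f l (D.T (av l))).re) → 0 ≤ (∑ l, f l (av l)).re := by
    intro f hf
    obtain ⟨R, Ω, b, hΩ, hb⟩ := exists_commutant (m + 1) f
    have h1 := pos_main R.π F hmono h0 hmul hstar hfd hgr k (m + 1) av hav b
      (pos_transfer R Ω (m + 1) f b hΩ hb av hf) Ω
    have h2 : ⟪Ω, mu R.π (∑ l, av l ⊗ₜ b l) Ω⟫_ℂ = ∑ l, f l (av l) := by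
      rw [map_sum, ContinuousLinearMap.sum_apply, inner_sum]
      refine Finset.sum_congr rfl fun l _ => ?_
      have h3 := hb l 1 (av l)
      rw [star_one, one_mul, map_one] at h3
      rw [h3, mu_tmul, (mem_Cm R.π (b l).1).mp (b l).2 (av l)]
      rfl
    rwa [h2] at h1
  obtain ⟨δ, hδ0, hδ⟩ : ∃ δ : ℝ, 0 < δ ∧ δ + δ * (|K| + 1) ≤ ε / 4 := by
    refine ⟨ε / 4 / (|K| + 2), by positivity, le_of_eq ?_⟩
    have : |K| + 2 ≠ 0 := by positivity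
    field_simp
    ring
  obtain ⟨R0, -, -, -⟩ := exists_vector_rep (0 : A →L[ℂ] ℂ)
  let D0 : Dta A := ⟨R0, 0, fun i => i.elim0, ⟨fun i => i.elim0, fun i => i.elim0⟩, fun i => i.elim0⟩
  obtain ⟨D, hD⟩ := approx_Dta D0 (m + 1) av hsep δ hδ0
  obtain ⟨k', φ, ψ, c1, c2, c3, c4, c5⟩ := finish D δ hδ0.le (hD 0).le
  refine ⟨k', φ, ψ, c1, c2, c3, c4, fun a ha => ?_⟩
  have e1 : ψ (φ a) - a = (ψ (φ (a - g a))) + (ψ (φ (g a)) - g a) - (a - g a) := by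
    rw [map_sub, map_sub]; abel
  have e2 : ‖ψ (φ (a - g a))‖ ≤ ‖a - g a‖ := (c4 _).trans (c3 _)
  have e3 := c5 (g a)
  have e4 : ‖D.T (g a) - g a‖ < δ := by
    have := hD (Fin.succ (e ⟨a, ha⟩))
    have e5 : av (Fin.succ (e ⟨a, ha⟩)) = g a := by
      show g (e.symm (e ⟨a, ha⟩)).1 = g a
      rw [Equiv.symm_apply_apply]
    rwa [e5] at this
  have e6 : ‖g a‖ ≤ |K| + 1 := by
    have h1 := hK a ha
    have h2 := hg1 a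
    have h3 : ‖g a‖ ≤ ‖a‖ + ‖a - g a‖ := by
      have := norm_sub_le a (a - g a)
      rwa [sub_sub_cancel] at this
    have h4 := min_le_left (1 : ℝ) (ε / 8)
    have h5 := le_abs_self K
    linarith
  have e7 : ‖a - g a‖ < ε / 8 := (hg1 a).trans_le (min_le_right _ _)
  have e8 : δ * ‖g a‖ ≤ δ * (|K| + 1) := mul_le_mul_of_nonneg_left e6 hδ0.le
  calc ‖ψ (φ a) - a‖ = ‖(ψ (φ (a - g a))) + (ψ (φ (g a)) - g a) - (a - g a)‖ := by rw [e1]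
    _ ≤ ‖ψ (φ (a - g a))‖ + ‖ψ (φ (g a)) - g a‖ + ‖a - g a‖ :=
      (norm_sub_le _ _).trans (by gcongr; exact norm_add_le _ _)
    _ < ε := by linarith

end Pool.Agent.Helper234.Sub
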