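import Mathlib

set_option autoImplicit false
open scoped ComplexOrder InnerProductSpace TensorProduct

namespace Pool.Agent.Helper234.Sub

/-- a representation on a Hilbert space -/
structure Rep (A : Type) [CStarAlgebra A] where
  H : Type
  [i1 : NormedAddCommGroup H]
  [i2 : InnerProductSpace ℂ H]
  [i3 : CompleteSpace H]
  π : A →⋆ₐ[ℂ] (H →L[ℂ] H)

attribute [instance] Rep.i1 Rep.i2 Rep.i3

section alg

variable {A : Type} [CStarAlgebra A] {G : Type} [NormedAddCommGroup G] [InnerProductSpace ℂ G] [CompleteSpace G]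
  (ρ : A →⋆ₐ[ℂ] (G →L[ℂ] G))

/-- the commutant of a representation -/
def Cm : Subalgebra ℂ (G →L[ℂ] G) := Subalgebra.centralizer ℂ (Set.range ρ)

lemma mem_Cm (b : G →L[ℂ] G) : b ∈ Cm ρ ↔ ∀ x, ρ x * b = b * ρ x := by
  rw [Cm, Subalgebra.mem_centralizer_iff]
  constructor
  · intro h x
    exact h _ ⟨x, rfl⟩
  · rintro h _ ⟨x, rfl⟩
    exact h x

lemma star_mem_Cm {b : G →L[ℂ] G} (hb : b ∈ Cm ρ) : star b ∈ Cm ρ := by
  rw [mem_Cm] at hb ⊢
  intro x
  have h := congrArg star (hb (star x))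
  rw [star_mul, star_mul, map_star, star_star] at h
  exact h.symm

lemma comm_mu (x : A) (b : Cm ρ) : Commute ((ρ : A →ₐ[ℂ] (G →L[ℂ] G)) x) ((Cm ρ).val b) :=
  (mem_Cm ρ b.1).mp b.2 x

/-- the product representation of the algebraic tensor product with the commutant -/
noncomputable def mu : A ⊗[ℂ] Cm ρ →ₐ[ℂ] (G →L[ℂ] G) :=
  Algebra.TensorProduct.lift (ρ : A →ₐ[ℂ] (G →L[ℂ] G)) (Cm ρ).val (comm_mu ρ)

lemma mu_tmul (x : A) (b : Cm ρ) : mu ρ (x ⊗ₜ b) = ρ x * b.1 := by
  rw [mu, Algebra.TensorProduct.lift_tmul]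
  rfl

/-- tensoring with the identity on the right -/
noncomputable def lf (R : Rep A) (G : Type) [NormedAddCommGroup G] [InnerProductSpace ℂ G] :
    A →ₐ[ℂ] Module.End ℂ (R.H ⊗[ℂ] G) where
  toFun x := TensorProduct.map (R.π x : R.H →ₗ[ℂ] R.H) LinearMap.id
  map_one' := by
    rw [map_one]
    exact TensorProduct.map_id
  map_mul' x y := by
    rw [map_mul, Module.End.mul_eq_comp, ← TensorProduct.map_comp]
    rfl
  map_zero' := by
    rw [map_zero]
    exact TensorProduct.map_zero_left _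
  map_add' x y := by
    rw [map_add, ← TensorProduct.map_add_left]
    rfl
  commutes' r := by
    ext u v
    simp [Algebra.algebraMap_eq_smul_one, TensorProduct.smul_tmul']

/-- tensoring with the identity on the left -/
noncomputable def rg (R : Rep A) : Cm ρ →ₐ[ℂ] Module.End ℂ (R.H ⊗[ℂ] G) where
  toFun b := TensorProduct.map LinearMap.id (b.1 : G →ₗ[ℂ] G)
  map_one' := TensorProduct.map_id
  map_mul' x y := by
    rw [Module.End.mul_eq_comp, ← TensorProduct.map_comp]
    rfl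
  map_zero' := TensorProduct.map_zero_right _
  map_add' x y := by
    rw [← TensorProduct.map_add_right]
    rfl
  commutes' r := by
    ext u v
    simp [Algebra.algebraMap_eq_smul_one, TensorProduct.tmul_smul]

lemma comm_th (R : Rep A) (x : A) (b : Cm ρ) : Commute (lf R G x) (rg ρ R b) := by
  show TensorProduct.map (R.π x : R.H →ₗ[ℂ] R.H) LinearMap.id ∘ₗ TensorProduct.map LinearMap.id (b.1 : G →ₗ[ℂ] G) =
    TensorProduct.map LinearMap.id (b.1 : G →ₗ[ℂ] G) ∘ₗ TensorProduct.map (R.π x : R.H →ₗ[ℂ] R.H) LinearMap.id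
  rw [← TensorProduct.map_comp, ← TensorProduct.map_comp]
  rfl

/-- the spatial representation of the algebraic tensor product -/
noncomputable def th (R : Rep A) : A ⊗[ℂ] Cm ρ →ₐ[ℂ] Module.End ℂ (R.H ⊗[ℂ] G) :=
  Algebra.TensorProduct.lift (lf R G) (rg ρ R) (comm_th ρ R)

lemma th_tmul (R : Rep A) (x : A) (b : Cm ρ) :
    th ρ R (x ⊗ₜ b) = TensorProduct.map (R.π x : R.H →ₗ[ℂ] R.H) (b.1 : G →ₗ[ℂ] G) := by
  rw [th, Algebra.TensorProduct.lift_tmul]
  show TensorProduct.map (R.π x : R.H →ₗ[ℂ] R.H) LinearMap.id ∘ₗ TensorProduct.map LinearMap.id (b.1 : G →ₗ[ℂ] G) = _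
  rw [← TensorProduct.map_comp]
  rfl

/-- elements whose first coordinates lie in a subspace -/
noncomputable def FB (V : Submodule ℂ A) : Submodule ℂ (A ⊗[ℂ] Cm ρ) :=
  Submodule.map₂ (TensorProduct.mk ℂ A (Cm ρ)) V ⊤

end alg

end Pool.Agent.Helper234.Sub
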