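import Pool.Agent.Helper234.Sub.S1

set_option autoImplicit false
open scoped ComplexOrder InnerProductSpace TensorProduct

namespace Pool.Agent.Helper234.Sub

/-- data of an elementary completely positive map factoring through a matrix algebra -/
structure Dta (A : Type) [CStarAlgebra A] where
  R : Rep A
  r : ℕ
  e : Fin r → R.H
  he : Orthonormal ℂ e
  c : Fin r → A

/-- the map of the data -/
noncomputable def Dta.T {A : Type} [CStarAlgebra A] (D : Dta A) (a : A) : A :=
  ∑ i, ∑ j, ⟪D.e i, D.R.π a (D.e j)⟫_ℂ • (star (D.c i) * D.c j)

end Pool.Agent.Helper234.Sub
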