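import Pool.Agent.Helper234.Sub.S2

set_option autoImplicit false
open scoped ComplexOrder InnerProductSpace TensorProduct

namespace Pool.Agent.Helper234.Sub.SB

open Pool.Agent.Helper234.Sub


theorem det_update_repr {E : Type} [NormedAddCommGroup E] [NormedSpace ℂ E]
    {n : ℕ} (b0 b : Module.Basis (Fin n) ℂ E) (i : Fin n) (x : E) :
    b0.det (Function.update b i x) = b0.det b * b.repr x i := by
  have h1 := AlternatingMap.eq_smul_basis_det b b0.det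
  have h2 : b0.det (Function.update b i x) = b0.det b * b.det (Function.update b i x) := by
    conv_lhs => rw [h1]
    rfl
  have h3 : b.det (Function.update b i x) = b.repr x i := by
    rw [Module.Basis.det_apply, Module.Basis.toMatrix_update, Module.Basis.toMatrix_self,
      ← Matrix.cramer_apply, Matrix.cramer_one]
    rfl
  rw [h2, h3]

/-- TARGET 1 (Auerbach) -/
theorem auerbach (E : Type) [NormedAddCommGroup E] [NormedSpace ℂ E] [FiniteDimensional ℂ E] :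
    ∃ b : Module.Basis (Fin (Module.finrank ℂ E)) ℂ E, (∀ i, ‖b i‖ ≤ 1) ∧ ∀ i x, ‖b.repr x i‖ ≤ ‖x‖ := by
  classical
  have hprop : ProperSpace E := FiniteDimensional.proper ℂ E
  obtain ⟨b0, hb0⟩ : ∃ b0, b0 = Module.finBasis ℂ E := ⟨_, rfl⟩
  have hcont : Continuous (fun v : Fin (Module.finrank ℂ E) → E => ‖b0.det v‖) := by
    have h1 : ∀ v : Fin (Module.finrank ℂ E) → E, b0.det v = (b0.toMatrix v).det := fun v =>
      Module.Basis.det_apply _ _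
    simp only [h1]
    apply Continuous.norm
    apply Continuous.matrix_det
    apply continuous_matrix
    intro i j
    have h2 : Continuous (b0.coord i) := LinearMap.continuous_of_finiteDimensional _
    exact h2.comp (continuous_apply j)
  have hK : IsCompact (Set.pi Set.univ (fun _ : Fin (Module.finrank ℂ E) =>
      Metric.closedBall (0 : E) 1)) := isCompact_univ_pi fun _ => isCompact_closedBall 0 1
  obtain ⟨v, hv, hmax⟩ := hK.exists_isMaxOn ⟨0, by simp [Set.mem_pi]⟩ hcont.continuousOn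
  have hmax' : ∀ w : Fin (Module.finrank ℂ E) → E, (∀ i, ‖w i‖ ≤ 1) →
      ‖b0.det w‖ ≤ ‖b0.det v‖ := by
    intro w hw
    exact hmax (Set.mem_pi.2 fun i _ => by simpa using hw i)
  have hv' : ∀ i, ‖v i‖ ≤ 1 := fun i => by simpa using hv i (Set.mem_univ i)
  have hdet : b0.det v ≠ 0 := by
    intro h0
    have h1 := hmax' (fun i => ((‖b0 i‖⁻¹ : ℝ) : ℂ) • b0 i) (by
      intro i
      have : ‖b0 i‖ ≠ 0 := norm_ne_zero_iff.2 (b0.ne_zero i)
      rw [norm_smul, Complex.norm_real, norm_inv, norm_norm, inv_mul_cancel₀ this])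
    rw [h0, norm_zero] at h1
    have h2 : b0.det (fun i => ((‖b0 i‖⁻¹ : ℝ) : ℂ) • b0 i) =
        (∏ i, ((‖b0 i‖⁻¹ : ℝ) : ℂ)) • b0.det b0 :=
      MultilinearMap.map_smul_univ b0.det.toMultilinearMap _ _
    rw [h2, Module.Basis.det_self] at h1
    have h3 : (∏ i, ((‖b0 i‖⁻¹ : ℝ) : ℂ)) ≠ 0 := by
      rw [Finset.prod_ne_zero_iff]
      intro i _
      have : ‖b0 i‖ ≠ 0 := norm_ne_zero_iff.2 (b0.ne_zero i)
      exact_mod_cast inv_ne_zero this
    have h4 := norm_le_zero_iff.1 h1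
    rw [smul_eq_mul, mul_one] at h4
    exact h3 h4
  have hbas := (Module.Basis.is_basis_iff_det b0 (v := v)).2 (isUnit_iff_ne_zero.2 hdet)
  obtain ⟨b, hb⟩ : ∃ b : Module.Basis (Fin (Module.finrank ℂ E)) ℂ E, ⇑b = v :=
    ⟨Module.Basis.mk hbas.1 hbas.2.ge, Module.Basis.coe_mk _ _⟩
  refine ⟨b, fun i => by rw [hb]; exact hv' i, ?_⟩
  intro i x
  by_cases hx : x = 0
  · rw [hx]; simp
  · have hxn : ‖x‖ ≠ 0 := norm_ne_zero_iff.2 hx
    have hxn' : 0 < ‖x‖ := norm_pos_iff.2 hx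
    have h1 := hmax' (Function.update b i (((‖x‖⁻¹ : ℝ) : ℂ) • x)) (by
      intro j
      by_cases hj : j = i
      · rw [hj, Function.update_self, norm_smul, Complex.norm_real, norm_inv, norm_norm,
          inv_mul_cancel₀ hxn]
      · rw [Function.update_of_ne hj, hb]
        exact hv' j)
    rw [det_update_repr, ← hb, norm_mul] at h1
    rw [← hb] at hdet
    have h2 : 0 < ‖b0.det b‖ := norm_pos_iff.2 hdet
    have h3 : ‖b.repr (((‖x‖⁻¹ : ℝ) : ℂ) • x) i‖ ≤ 1 := by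
      by_contra hcon
      push Not at hcon
      nlinarith
    rw [map_smul, Finsupp.smul_apply, norm_smul, Complex.norm_real, norm_inv, norm_norm,
      inv_mul_le_iff₀ hxn', mul_one] at h3
    exact h3

theorem sym_bound {E : Type} [NormedAddCommGroup E] [InnerProductSpace ℂ E] (y : E →ₗ[ℂ] E) (L : ℝ)
    (hL : 0 ≤ L)
    (hs : ∀ u v, ⟪y u, v⟫_ℂ = ⟪u, y v⟫_ℂ) (h0 : ∀ v, 0 ≤ (⟪v, y v⟫_ℂ).re)
    (h1 : ∀ v, (⟪v, y v⟫_ℂ).re ≤ L * ‖v‖ ^ 2) (v : E) : ‖y v‖ ≤ L * ‖v‖ := by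
  have key : ∀ t : ℝ, 0 ≤ L * ‖v‖ ^ 2 - 2 * t * ‖y v‖ ^ 2 + t ^ 2 * (L * ‖y v‖ ^ 2) := by
    intro t
    have h2 := h0 (v - (t : ℂ) • y v)
    have h3 : (⟪v - (t : ℂ) • y v, y (v - (t : ℂ) • y v)⟫_ℂ).re =
        (⟪v, y v⟫_ℂ).re - 2 * t * ‖y v‖ ^ 2 + t ^ 2 * (⟪y v, y (y v)⟫_ℂ).re := by
      rw [map_sub, map_smul, inner_sub_left, inner_sub_right, inner_sub_right, inner_smul_left,
        inner_smul_left, inner_smul_right, inner_smul_right, ← hs v (y v),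
        inner_self_eq_norm_sq_to_K]
      simp only [Complex.conj_ofReal, Complex.sub_re, Complex.re_ofReal_mul]
      have h4 : (((‖y v‖ : ℂ)) ^ 2).re = ‖y v‖ ^ 2 := by
        rw [← Complex.ofReal_pow, Complex.ofReal_re]
      simp only [Complex.coe_algebraMap, h4]
      ring
    rw [h3] at h2
    have h5 := h1 v
    have h6 := h1 (y v)
    have h7 : t ^ 2 * (⟪y v, y (y v)⟫_ℂ).re ≤ t ^ 2 * (L * ‖y v‖ ^ 2) :=
      mul_le_mul_of_nonneg_left h6 (sq_nonneg t)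
    linarith
  have hn1 := norm_nonneg (y v)
  have hn2 := norm_nonneg v
  rcases hL.eq_or_lt with h | h
  · have := key 1
    rw [← h] at this ⊢
    have h2 : ‖y v‖ ^ 2 ≤ 0 := by nlinarith
    nlinarith
  · have := key (1 / L)
    have h2 : L * ‖v‖ ^ 2 - 2 * (1 / L) * ‖y v‖ ^ 2 + (1 / L) ^ 2 * (L * ‖y v‖ ^ 2) =
        (L ^ 2 * ‖v‖ ^ 2 - ‖y v‖ ^ 2) / L := by
      field_simp
      ring
    rw [h2] at this
    have h3 : 0 ≤ L ^ 2 * ‖v‖ ^ 2 - ‖y v‖ ^ 2 := by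
      have := mul_nonneg this h.le
      rwa [div_mul_cancel₀ _ h.ne'] at this
    have h4 : ‖y v‖ ^ 2 ≤ (L * ‖v‖) ^ 2 := by nlinarith
    exact abs_le_of_sq_le_sq' h4 (by positivity) |>.2

/-- TARGET 2 -/
theorem pow_bound {E : Type} [NormedAddCommGroup E] [InnerProductSpace ℂ E] (y : E →ₗ[ℂ] E) (L : ℝ) (hL : 0 ≤ L)
    (hs : ∀ u v, ⟪y u, v⟫_ℂ = ⟪u, y v⟫_ℂ) (h0 : ∀ v, 0 ≤ (⟪v, y v⟫_ℂ).re)
    (h1 : ∀ v, (⟪v, y v⟫_ℂ).re ≤ L * ‖v‖ ^ 2) (n : ℕ) (v : E) : ‖(y ^ n) v‖ ≤ L ^ n * ‖v‖ := by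
  induction n with
  | zero => simp
  | succ n ih =>
    rw [pow_succ', Module.End.mul_apply]
    calc ‖y ((y ^ n) v)‖ ≤ L * ‖(y ^ n) v‖ := sym_bound y L hL hs h0 h1 _
      _ ≤ L * (L ^ n * ‖v‖) := mul_le_mul_of_nonneg_left ih hL
      _ = _ := by ring

/-- TARGET 3 -/
theorem map_bound {H G : Type} [NormedAddCommGroup H] [InnerProductSpace ℂ H] [NormedAddCommGroup G]
    [InnerProductSpace ℂ G] (x : H →L[ℂ] H) (b : G →L[ℂ] G) (v : H ⊗[ℂ] G) :
    ‖TensorProduct.map (x : H →ₗ[ℂ] H) (b : G →ₗ[ℂ] G) v‖ ≤ ‖x‖ * ‖b‖ * ‖v‖ := by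
  rw [← TensorProduct.mapL_apply]
  exact (ContinuousLinearMap.le_opNorm _ _).trans
    (mul_le_mul_of_nonneg_right (TensorProduct.norm_mapL_le x b) (norm_nonneg _))

end Pool.Agent.Helper234.Sub.SB
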